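import Mathlib
import Pool.Graph.R_pool_sql_team_seeded_47a924f7.T6.H79.SO.Final2

/-! Four point constraints for `F = K` without a bound for single orbits. -/

open Finset

namespace H79SO

/-- coprime residues -/
theorem crt' {n : ℕ} (μ : Fin n → ℕ) (h2 : ∀ i, 2 ≤ μ i)
    (hco : Pairwise (Function.onFun Nat.Coprime μ)) (v : Fin n → ℕ) :
    ∃ g : ℕ, ∀ i, g ≡ v i [MOD μ i] := by
  obtain ⟨g, hg⟩ := Nat.chineseRemainderOfFinset v μ Finset.univ
    (fun i _ => by have := h2 i; omega) (fun i _ j _ hij => hco hij)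
  exact ⟨g, fun i => hg i (Finset.mem_univ i)⟩

/-- odd degree: if `x` is fixed by the square of the Frobenius, it is fixed by the Frobenius -/
theorem fix_of_fix_two {K : Type} [Field K] (q a : ℕ) (x : K) (ha : a % 2 = 1)
    (h : x ^ (q ^ a) = x) (h2 : x ^ (q ^ 2) = x) : x ^ q = x := by
  have h3 := pow_red q 2 x h2 a 1 ha
  rw [h, pow_one] at h3
  exact h3.symm

/-- distinct odd prime divisors -/
theorem exists_odd_primes (n : ℕ) : ∃ t : ℕ, t ≠ 0 ∧ ∃ μ : Fin n → ℕ,
    (∀ i, 3 ≤ μ i) ∧ (∀ i, μ i % 2 = 1) ∧ Pairwise (Function.onFun Nat.Coprime μ) ∧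
      ∀ i, μ i ∣ t := by
  classical
  obtain ⟨t, ht0, _, hω⟩ := exists_degree (n + 1)
  have hc : Fintype.card (Fin n) ≤ Fintype.card {q // q ∈ t.primeFactors.erase 2} := by
    rw [Fintype.card_fin, Fintype.card_coe]
    have := Finset.pred_card_le_card_erase (s := t.primeFactors) (a := 2)
    omega
  obtain ⟨ι⟩ := Function.Embedding.nonempty_of_card_le hc
  have hpr : ∀ i, ((ι i : ℕ)).Prime := fun i =>
    Nat.prime_of_mem_primeFactors (Finset.mem_of_mem_erase (ι i).2)
  have hne : ∀ i, (ι i : ℕ) ≠ 2 := fun i => Finset.ne_of_mem_erase (ι i).2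
  refine ⟨t, ht0, fun i => (ι i : ℕ), ?_, ?_, ?_, ?_⟩
  · intro i
    have h1 := (hpr i).two_le
    have h2 := hne i
    change 3 ≤ (ι i : ℕ)
    omega
  · intro i
    exact ((hpr i).eq_two_or_odd).resolve_left (hne i)
  · intro i j hij
    refine (Nat.coprime_primes (hpr i) (hpr j)).2 ?_
    intro h
    exact hij (ι.injective (Subtype.ext h))
  · intro i
    exact Nat.dvd_of_mem_primeFactors (Finset.mem_of_mem_erase (ι i).2)

variable {K : Type} [Field K] [Fintype K] [DecidableEq K]

/-- four point words -/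
def w4 (γ δ : K) : K → K := fun x =>
  (if x = γ * γ then 1 else 0) - (γ + δ) * (if x = γ then 1 else 0) +
    γ * δ * (if x = 1 then 1 else 0) - (1 - γ) * (1 - δ) * (if x = 0 then 1 else 0)

theorem sum_w4 (γ δ : K) (φ : K → K) : ∑ x, w4 γ δ x * φ x =
    φ (γ * γ) - (γ + δ) * φ γ + γ * δ * φ 1 - (1 - γ) * (1 - δ) * φ 0 := by
  simp only [w4, sub_mul, add_mul, Finset.sum_sub_distrib, Finset.sum_add_distrib, ite_mul,
    mul_ite, mul_one, mul_zero, one_mul, zero_mul, Finset.sum_ite_eq', Finset.mem_univ, if_true]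

theorem supp_w4 (γ δ : K) : (univ.filter (fun x => w4 γ δ x ≠ 0)).card ≤ 4 := by
  have : (univ.filter (fun x => w4 γ δ x ≠ 0)) ⊆ ({γ * γ, γ, 1, 0} : Finset K) := by
    intro x hx
    simp only [Finset.mem_filter, Finset.mem_univ, true_and] at hx
    by_contra hcon
    simp only [Finset.mem_insert, Finset.mem_singleton, not_or] at hcon
    obtain ⟨h1, h2, h3, h4⟩ := hcon
    apply hx
    simp [w4, h1, h2, h3, h4]
  exact (Finset.card_le_card this).trans Finset.card_le_four

theorem lower4 (p : ℕ) [hp : Fact p.Prime] [CharP K p] (N : ℕ) (hN : Fintype.card K = p ^ N)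
    (hN0 : N ≠ 0) (n : ℕ) (hn : 1 ≤ n) (μ : Fin n → ℕ) (h3 : ∀ i, 3 ≤ μ i)
    (hodd : ∀ i, μ i % 2 = 1)
    (hco : Pairwise (Function.onFun Nat.Coprime μ)) (hd : ∀ i, μ i ∣ N) :
    ∃ P : Submodule K (K → K), AffInv P ∧ P ≠ ⊤ ∧ LocalChar 4 P ∧
      ∀ k, SingleOrbit k P → n ≤ k := by
  classical
  have h2 : ∀ i, 2 ≤ μ i := fun i => by have := h3 i; omega
  choose γ hγ1 hγ2 using fun i => exists_elt (K := K) p N (μ i) hN (h2 i) hN0 (hd i)
  have hγ3 : ∀ i, γ i ^ p ^ 2 ≠ γ i := fun i h => hγ2 i (fix_of_fix_two p _ _ (hodd i) (hγ1 i) h)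
  have hfr : ∀ x : K, x ^ (p ^ N) = x := by
    intro x
    rw [← hN]
    exact FiniteField.pow_card x
  choose g hg using fun A : Fin n => crt' μ h2 hco (fun m => if m = A then 1 else 0)
  set w : Fin n → K → K := fun m => w4 (γ m) (γ m ^ p) with hw
  let σ : Fin n → Fin n → (K →+* K) := fun A B => iterateFrobenius K p (g A + g B)
  have hval : ∀ (m : Fin n) (τ : K →+* K), ∑ x, w m x * τ x =
      (τ (γ m) - γ m) * (τ (γ m) - γ m ^ p) := by
    intro m τ
    rw [hw]
    simp only
    rw [sum_w4, map_mul, map_one, map_zero]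
    ring
  have hc0 : ∀ (m : Fin n) (c : K), ∑ x, w m x * c = 0 := by
    intro m c
    rw [hw]
    simp only
    rw [sum_w4 _ _ (fun _ => c)]
    ring
  have hmem : ∀ τ : K →+* K, (∀ m, ∑ x, w m x * τ x = 0) → (fun x => τ x) ∈ space w := by
    intro τ hτ m a b _
    have : ∑ x, w m x * τ (a * x + b) = τ a * ∑ x, w m x * τ x + ∑ x, w m x * τ b := by
      rw [Finset.mul_sum, ← Finset.sum_add_distrib]
      refine Finset.sum_congr rfl fun x _ => ?_
      rw [map_add, map_mul]; ring
    rw [this, hτ, hc0]; ring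
  have hcmem : (fun _ => 1) ∈ space w := fun m a b _ => hc0 m 1
  have hoff : ∀ A B : Fin n, A ≠ B → ∀ m, ∑ x, w m x * σ A B x = 0 := by
    intro A B hAB m
    rw [hval]
    have e0 := (hg A m).add (hg B m)
    by_cases hm : m = A
    · have hm2 : m ≠ B := fun h => hAB (hm.symm.trans h)
      simp only [if_pos hm, if_neg hm2, Nat.add_zero] at e0
      have e2 := pow_red p _ _ (hγ1 m) _ _ e0
      rw [pow_one] at e2
      simp only [σ, iterateFrobenius_def, e2, sub_self, mul_zero]
    · by_cases hm2 : m = B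
      · simp only [if_neg hm, if_pos hm2, Nat.zero_add] at e0
        have e2 := pow_red p _ _ (hγ1 m) _ _ e0
        rw [pow_one] at e2
        simp only [σ, iterateFrobenius_def, e2, sub_self, mul_zero]
      · simp only [if_neg hm, if_neg hm2, Nat.add_zero] at e0
        have e2 := pow_red p _ _ (hγ1 m) _ _ e0
        rw [pow_zero, pow_one] at e2
        simp only [σ, iterateFrobenius_def, e2, sub_self, zero_mul]
  have hdiag : ∀ A : Fin n, ∑ x, w A x * σ A A x ≠ 0 := by
    intro A
    rw [hval]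
    have e0 := (hg A A).add (hg A A)
    simp only [if_true] at e0
    have e2 := pow_red p _ _ (hγ1 A) _ _ e0
    simp only [σ, iterateFrobenius_def, e2]
    refine mul_ne_zero (sub_ne_zero.2 (hγ3 A)) (sub_ne_zero.2 ?_)
    intro h
    apply hγ2 A
    have h5 : (γ A ^ p) ^ p = γ A ^ p := by
      rw [← pow_mul, ← pow_two]; exact h
    have h6 : frobenius K p (γ A ^ p) = frobenius K p (γ A) := by
      simpa [frobenius_def] using h5
    exact (frobenius K p).injective h6
  have hnot : ∀ A : Fin n, (fun x => σ A A x) ∉ space w := by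
    intro A hA
    have := hA A 1 0 one_ne_zero
    simp only [one_mul, add_zero] at this
    exact hdiag A this
  refine ⟨space w, space_inv w, ?_, space_local w 4 (fun m => supp_w4 _ _), ?_⟩
  · intro htop
    apply hnot ⟨0, by omega⟩
    rw [htop]; trivial
  · rintro k ⟨C, hC⟩
    set V : Submodule K (Fin k → K) := (space w).map (LinearMap.funLeft K K C.pt) with hV
    have hVS : ∀ v ∈ V, v ∈ C.S := by
      rintro v ⟨f, hf, rfl⟩
      have h : (fun i => f (1 * C.pt i + 0)) ∈ C.S := (hC f).1 hf 1 0 one_ne_zero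
      simp only [one_mul, add_zero] at h
      exact h
    have hrow : ∀ A : Fin n, ∃ h : Fin k → K, (∀ v ∈ V, ∑ m, h m * v m = 0) ∧
        ∑ m, h m * σ A A (C.pt m) ≠ 0 := by
      intro A
      have h1 := hnot A
      rw [hC] at h1
      push Not at h1
      obtain ⟨a, b, ha, hab⟩ := h1
      have hnV : (fun m => σ A A (a * C.pt m + b)) ∉ V := fun hmem => hab (hVS _ hmem)
      obtain ⟨ψ, hψ1, hψ2⟩ := Submodule.exists_le_ker_of_notMem hnV
      have hψ : ∀ v : Fin k → K, ψ v = ∑ m, ψ (fun j => if m = j then 1 else 0) * v m := by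
        intro v
        rw [LinearMap.pi_apply_eq_sum_univ ψ v]
        refine Finset.sum_congr rfl fun m _ => ?_
        rw [smul_eq_mul, mul_comm]
      refine ⟨fun m => ψ (fun j => if m = j then 1 else 0), ?_, ?_⟩
      · intro v hv
        rw [← hψ]
        exact hψ2 hv
      · intro hzero
        apply hψ1
        rw [hψ]
        have h1 : ∑ m, ψ (fun j => if m = j then 1 else 0) * (1 : K) = 0 := by
          rw [← hψ (fun _ => 1)]
          exact hψ2 ⟨_, hcmem, rfl⟩
        have h3 : ∑ m, ψ (fun j => if m = j then 1 else 0) * σ A A (a * C.pt m + b) =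
            σ A A a * ∑ m, ψ (fun j => if m = j then 1 else 0) * σ A A (C.pt m) +
            σ A A b * ∑ m, ψ (fun j => if m = j then 1 else 0) * (1 : K) := by
          rw [Finset.mul_sum, Finset.mul_sum, ← Finset.sum_add_distrib]
          refine Finset.sum_congr rfl fun m _ => ?_
          rw [map_add, map_mul]; ring
        rw [h3, hzero, h1]; ring
    choose h hh1 hh2 using hrow
    let τ : Fin n → (K →+* K) := fun A => iterateFrobenius K p ((N - 1) * g A)
    let ρ : Fin n → (K →+* K) := fun B => iterateFrobenius K p (g B)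
    have hcomp : ∀ A B x, τ A (σ A B x) = ρ B x := by
      intro A B x
      simp only [τ, σ, ρ, iterateFrobenius_def]
      rw [← pow_mul, ← pow_add]
      have e : g A + g B + (N - 1) * g A = g B + N * g A := by
        obtain ⟨M, rfl⟩ := Nat.exists_eq_succ_of_ne_zero hN0
        simp only [Nat.succ_eq_add_one, Nat.add_sub_cancel]
        ring
      rw [e]
      exact pow_red p N x (hfr x) _ _ (by simp [Nat.ModEq])
    have hdot : ∀ A B, ∑ m, τ A (h A m) * ρ B (C.pt m) =
        τ A (∑ m, h A m * σ A B (C.pt m)) := by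
      intro A B
      rw [map_sum]
      refine Finset.sum_congr rfl fun m _ => ?_
      rw [map_mul, hcomp]
    have hlin : LinearIndependent K (fun A : Fin n => fun m : Fin k => τ A (h A m)) := by
      rw [Fintype.linearIndependent_iff]
      intro c hc B
      have h5 : ∑ m, (∑ A, c A * τ A (h A m)) * ρ B (C.pt m) = 0 := by
        refine Finset.sum_eq_zero fun m _ => ?_
        have := congrFun hc m
        simp only [Finset.sum_apply, Pi.smul_apply, smul_eq_mul, Pi.zero_apply] at this
        rw [this, zero_mul]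
      have h6 : ∑ m, (∑ A, c A * τ A (h A m)) * ρ B (C.pt m) =
          ∑ A, c A * ∑ m, τ A (h A m) * ρ B (C.pt m) := by
        simp only [Finset.sum_mul, Finset.mul_sum]
        rw [Finset.sum_comm]
        refine Finset.sum_congr rfl fun A _ => Finset.sum_congr rfl fun m _ => ?_
        ring
      rw [h6, Finset.sum_eq_single B] at h5
      · rw [hdot] at h5
        refine (mul_eq_zero.1 h5).resolve_right ?_
        intro hz
        exact hh2 B ((map_eq_zero (τ B)).1 hz)
      · intro A _ hAB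
        have h7 : ∑ m, h A m * σ A B (C.pt m) = 0 :=
          hh1 A _ ⟨_, hmem _ (hoff A B hAB), rfl⟩
        rw [hdot, h7, map_zero, mul_zero]
      · intro hs
        exact absurd (Finset.mem_univ _) hs
    have := hlin.fintype_card_le_finrank
    simpa using this

/-- no bound for `k ≥ 4` if `q` varies (already for `K = F`) -/
theorem unbounded4 (k : ℕ) (hk : 4 ≤ k) (B : ℕ) : ∃ (K : Type) (_ : Field K) (_ : Finite K),
    ∃ P : Submodule K (K → K), AffInv P ∧ P ≠ ⊤ ∧ LocalChar k P ∧ B < kPrime P := by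
  classical
  obtain ⟨t, ht0, μ, hμ3, hμo, hμc, hμd⟩ := exists_odd_primes (B + 1)
  have : Fact (Nat.Prime 2) := ⟨Nat.prime_two⟩
  have : Fintype (GaloisField 2 t) := Fintype.ofFinite _
  have hcard : Fintype.card (GaloisField 2 t) = 2 ^ t := by
    rw [← Nat.card_eq_fintype_card, GaloisField.card 2 t ht0]
  obtain ⟨P, h1, h2, h3, h4⟩ := lower4 (K := GaloisField 2 t) 2 t hcard ht0 (B + 1) (by omega)
    μ hμ3 hμo hμc hμd
  have hN : Nat.card (GaloisField 2 t) = 2 ^ t := by rw [Nat.card_eq_fintype_card, hcard]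
  have h5 := upper' (F := GaloisField 2 t) 2 t Nat.prime_two hN 4 P h1 h2 h3
  have h6 := h4 _ h5.1
  exact ⟨GaloisField 2 t, inferInstance, inferInstance, P, h1, h2, local_mono 4 k hk P h3,
    by omega⟩

end H79SO
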