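import Mathlib
import Pool.Agent.KS6_26.SO.Four

/-! Five point constraints over every fixed field with more than two elements. -/

open Finset

namespace H79SO

section Lower

variable {F K : Type} [Field F] [Field K] [Fintype K] [DecidableEq K] [Algebra F K]

theorem InP_hom' {ι : Type} (w : ι → K → F) (σ : K →+* K)
    (h0 : ∀ i, ∀ c : K, ∑ x, w i x • c = 0) (h1 : ∀ i, ∑ x, w i x • σ x = 0) :
    InP w (fun x => σ x) := by
  intro i a b _
  simp only [map_add, map_mul, smul_add, Finset.sum_add_distrib, h0]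
  have : ∑ x, w i x • (σ a * σ x) = σ a * ∑ x, w i x • σ x := by
    rw [Finset.mul_sum]
    exact Finset.sum_congr rfl fun x _ => by rw [mul_smul_comm]
  rw [this, h1]; simp

theorem InP_prod' {ι : Type} (w : ι → K → F) (σ τ : K →+* K)
    (h0 : ∀ i, ∀ c : K, ∑ x, w i x • c = 0) (h1 : ∀ i, ∑ x, w i x • σ x = 0)
    (h1' : ∀ i, ∑ x, w i x • τ x = 0)
    (h2 : ∀ i, ∑ x, w i x • (σ x * τ x) = 0) : InP w (fun x => σ x * τ x) := by
  intro i a b _
  have := expand (w i) (fun x => x) σ τ a b
  simp only at this ⊢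
  rw [this, h2 i, h1 i, h1' i, h0 i 1]
  simp

/-- The lower bound for single orbit characterizations. -/
theorem lower_lin [FiniteDimensional F K] [Algebra.IsSeparable F K]
    {ι κ : Type} [Fintype κ] (w : ι → K → F) (σ τ : κ → (K →+* K))
    (h0 : ∀ i, ∀ c : K, ∑ x, w i x • c = 0) (h1 : ∀ i s, ∑ x, w i x • σ s x = 0)
    (h1' : ∀ i s, ∑ x, w i x • τ s x = 0)
    (hoff : ∀ s t : κ, s ≠ t → ∀ i, ∑ x, w i x • (σ s x * τ t x) = 0)
    (hdiag : ∀ s : κ, ∃ i, ∑ x, w i x • (σ s x * τ s x) ≠ 0)
    (k : ℕ) (hk : SingleOrbit k (space w)) : Fintype.card κ ≤ k := by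
  obtain ⟨C, hC⟩ := hk
  set V : Submodule F (Fin k → F) :=
    (space w).map (LinearMap.funLeft F F C.pt) with hV
  have hVS : ∀ v ∈ V, v ∈ C.S := by
    rintro v ⟨f, hf, rfl⟩
    have h : (fun i => f (1 * C.pt i + 0)) ∈ C.S := (hC f).1 hf 1 0 one_ne_zero
    simp only [one_mul, add_zero] at h
    exact h
  -- functionals on V
  have hE : ∀ φ : K → K, InP w φ → ∀ h : Fin k → F, (∀ v ∈ V, ∑ m, h m * v m = 0) →
      ∑ m, h m • φ (C.pt m) = 0 := by
    intro φ hφ h hh
    by_contra hne
    obtain ⟨β, hβ⟩ := exists_trace_ne (F := F) _ hne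
    apply hβ
    rw [Finset.mul_sum, map_sum]
    refine Eq.trans ?_ (hh _ ⟨_, mem_of_InP w φ hφ β, rfl⟩)
    refine Finset.sum_congr rfl fun m _ => ?_
    rw [mul_smul_comm, map_smul, smul_eq_mul]
    rfl
  have hrow : ∀ s : κ, ∃ h : Fin k → F, (∀ v ∈ V, ∑ m, h m * v m = 0) ∧
      ∑ m, h m • (σ s (C.pt m) * τ s (C.pt m)) ≠ 0 := by
    intro s
    obtain ⟨i, hi⟩ := hdiag s
    obtain ⟨β, hβ⟩ := exists_trace_ne (F := F) _ hi
    have hnot : (fun x => Algebra.trace F K (β * (σ s x * τ s x))) ∉ space w := by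
      intro hmem
      have := hmem i 1 0 one_ne_zero
      simp only [one_mul, add_zero] at this
      have h2 := trace_pair (w i) (fun x => σ s x * τ s x) β
      rw [h2] at this
      exact hβ this
    rw [hC] at hnot
    push Not at hnot
    obtain ⟨a, b, ha, hab⟩ := hnot
    have hnV : (fun m => Algebra.trace F K (β * (σ s (a * C.pt m + b) * τ s (a * C.pt m + b)))) ∉ V := by
      intro hmem
      exact hab (hVS _ hmem)
    obtain ⟨ψ, hψ1, hψ2⟩ := Submodule.exists_le_ker_of_notMem hnV
    refine ⟨fun m => ψ (fun j => if m = j then 1 else 0), ?_, ?_⟩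
    · intro v hv
      have h3 : ψ v = 0 := hψ2 hv
      rw [LinearMap.pi_apply_eq_sum_univ ψ v] at h3
      refine Eq.trans ?_ h3
      refine Finset.sum_congr rfl fun m _ => ?_
      rw [smul_eq_mul, mul_comm]
    · intro hzero
      apply hψ1
      rw [LinearMap.pi_apply_eq_sum_univ ψ]
      set h : Fin k → F := fun m => ψ (fun j => if m = j then 1 else 0) with hh
      have hhV : ∀ v ∈ V, ∑ m, h m * v m = 0 := by
        intro v hv
        have h3 : ψ v = 0 := hψ2 hv
        rw [LinearMap.pi_apply_eq_sum_univ ψ v] at h3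
        refine Eq.trans ?_ h3
        refine Finset.sum_congr rfl fun m _ => ?_
        rw [smul_eq_mul, mul_comm]
      have h4 : ∑ m, h m • (σ s (a * C.pt m + b) * τ s (a * C.pt m + b)) = 0 := by
        rw [expand h C.pt (σ s) (τ s) a b, hzero,
          hE (fun x => σ s x) (InP_hom' w _ h0 (fun i => h1 i s)) h hhV,
          hE (fun x => τ s x) (InP_hom' w _ h0 (fun i => h1' i s)) h hhV,
          hE (fun _ => 1) (InP_const w 1 h0) h hhV]
        simp
      calc ∑ m, (Algebra.trace F K (β * (σ s (a * C.pt m + b) * τ s (a * C.pt m + b)))) • h m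
          = Algebra.trace F K (β * ∑ m, h m • (σ s (a * C.pt m + b) * τ s (a * C.pt m + b))) := by
            rw [Finset.mul_sum, map_sum]
            refine Finset.sum_congr rfl fun m _ => ?_
            rw [mul_smul_comm, map_smul, smul_eq_mul, smul_eq_mul, mul_comm]
        _ = 0 := by rw [h4, mul_zero, map_zero]
  choose h hh1 hh2 using hrow
  have hlin : LinearIndependent K (fun s : κ => fun m : Fin k => h s m • σ s (C.pt m)) := by
    classical
    rw [Fintype.linearIndependent_iff]
    intro g hg s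
    have h5 : ∑ m, (∑ t, g t * (h t m • σ t (C.pt m))) * τ s (C.pt m) = 0 := by
      refine Finset.sum_eq_zero fun m _ => ?_
      have := congrFun hg m
      simp only [Finset.sum_apply, Pi.smul_apply, smul_eq_mul, Pi.zero_apply] at this
      rw [this, zero_mul]
    have h6 : ∑ m, (∑ t, g t * (h t m • σ t (C.pt m))) * τ s (C.pt m) =
        ∑ t, g t * ∑ m, h t m • (σ t (C.pt m) * τ s (C.pt m)) := by
      simp only [Finset.sum_mul, Finset.mul_sum]
      rw [Finset.sum_comm]
      refine Finset.sum_congr rfl fun t _ => Finset.sum_congr rfl fun m _ => ?_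
      simp only [Algebra.smul_def]
      ring
    rw [h6, Finset.sum_eq_single s] at h5
    · exact (mul_eq_zero.1 h5).resolve_right (hh2 s)
    · intro t _ hts
      rw [hE (fun x => σ t x * τ s x)
        (InP_prod' w (σ t) (τ s) h0 (fun i => h1 i t) (fun i => h1' i s) (hoff t s hts))
        (h t) (hh1 t), mul_zero]
    · intro hs
      exact absurd (Finset.mem_univ _) hs
  have := hlin.fintype_card_le_finrank
  simpa using this

end Lower

/-! ### The words -/

section Word

variable {F K : Type} [Field F] [Field K] [Fintype K] [DecidableEq K] [Algebra F K]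

/-- five point words with coefficients in `F` -/
def w5q (ω : F) (x y : K) : K → F := fun z =>
  (if z = x + 1 then 1 else 0) - (if z = x then 1 else 0) - (if z = 1 then 1 else 0) +
    (-ω / (1 - ω)) * (if z = y then 1 else 0) +
    (1 / (1 - ω)) * (if z = algebraMap F K ω * y then 1 else 0)

theorem sum_w5q (ω : F) (x y : K) (φ : K → K) : ∑ z, w5q ω x y z • φ z =
    φ (x + 1) - φ x - φ 1 + (-ω / (1 - ω)) • φ y +
      (1 / (1 - ω)) • φ (algebraMap F K ω * y) := by
  simp only [w5q, sub_smul, add_smul, mul_smul, Finset.sum_sub_distrib, Finset.sum_add_distrib,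
    ite_smul, one_smul, zero_smul, ← Finset.smul_sum, Finset.sum_ite_eq', Finset.mem_univ, if_true]

theorem supp_w5q [DecidableEq F] (ω : F) (x y : K) :
    (univ.filter (fun z => w5q ω x y z ≠ 0)).card ≤ 5 := by
  have : (univ.filter (fun z => w5q ω x y z ≠ 0)) ⊆
      ({x + 1, x, 1, y, algebraMap F K ω * y} : Finset K) := by
    intro z hz
    simp only [Finset.mem_filter, Finset.mem_univ, true_and] at hz
    by_contra hcon
    simp only [Finset.mem_insert, Finset.mem_singleton, not_or] at hcon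
    obtain ⟨h1, h2, h3, h4, h5⟩ := hcon
    apply hz
    simp [w5q, h1, h2, h3, h4, h5]
  exact (Finset.card_le_card this).trans Finset.card_le_five

theorem w5q_const (ω : F) (hω : ω ≠ 1) (x y c : K) : ∑ z, w5q ω x y z • c = 0 := by
  have h1 : 1 - ω ≠ 0 := sub_ne_zero.2 hω.symm
  rw [sum_w5q ω x y (fun _ => c), add_assoc, ← add_smul]
  have : -ω / (1 - ω) + 1 / (1 - ω) = 1 := by
    rw [← add_div]; rw [neg_add_eq_sub]; exact div_self h1
  rw [this, one_smul]; ring

theorem w5q_lin (ω : F) (hω : ω ≠ 1) (x y : K) (σ : K →+* K)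
    (hσ : ∀ c : F, σ (algebraMap F K c) = algebraMap F K c) : ∑ z, w5q ω x y z • σ z = 0 := by
  have h1 : 1 - ω ≠ 0 := sub_ne_zero.2 hω.symm
  rw [sum_w5q ω x y (fun z => σ z)]
  simp only [map_add, map_one, map_mul, hσ, Algebra.smul_def]
  have h2 : algebraMap F K (-ω / (1 - ω)) + algebraMap F K (1 / (1 - ω)) * algebraMap F K ω = 0 := by
    rw [← map_mul, ← map_add]
    have : -ω / (1 - ω) + 1 / (1 - ω) * ω = 0 := by field_simp; ring
    rw [this, map_zero]
  linear_combination (σ y) * h2

theorem w5q_quad (ω : F) (hω : ω ≠ 1) (x y : K) (σ τ : K →+* K)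
    (hσ : ∀ c : F, σ (algebraMap F K c) = algebraMap F K c)
    (hτ : ∀ c : F, τ (algebraMap F K c) = algebraMap F K c) :
    ∑ z, w5q ω x y z • (σ z * τ z) = σ x + τ x - algebraMap F K ω * (σ y * τ y) := by
  have h1 : 1 - ω ≠ 0 := sub_ne_zero.2 hω.symm
  rw [sum_w5q ω x y (fun z => σ z * τ z)]
  simp only [map_add, map_one, map_mul, hσ, hτ, Algebra.smul_def]
  have h2 : algebraMap F K (-ω / (1 - ω)) +
      algebraMap F K (1 / (1 - ω)) * (algebraMap F K ω * algebraMap F K ω) =
      - algebraMap F K ω := by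
    rw [← map_mul, ← map_mul, ← map_add, ← map_neg]
    congr 1
    field_simp
    ring
  linear_combination (σ y * τ y) * h2

end Word

end H79SO
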