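import Mathlib
import Pool.Agent.KS6_26.SO.FiveQ

/-! Five point constraints over every fixed field with more than two elements, part 2. -/

open Finset

namespace H79SO

section Elements

variable {K : Type} [Field K] [Fintype K]

/-- an element of `K` with `γ ^ (q ^ a) = γ` and `γ ^ q ≠ γ` -/
theorem exists_elt_q (q N a : ℕ) (hp2 : 2 ≤ q)
    (hN : Fintype.card K = q ^ N) (ha : 2 ≤ a) (hN0 : N ≠ 0) (hd : a ∣ N) :
    ∃ γ : K, γ ^ (q ^ a) = γ ∧ γ ^ q ≠ γ := by
  classical
  obtain ⟨g, hg⟩ := IsCyclic.exists_generator (α := Kˣ)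
  have hord : orderOf g = q ^ N - 1 := by
    rw [orderOf_eq_card_of_forall_mem_zpowers hg, Nat.card_eq_fintype_card, Fintype.card_units, hN]
  obtain ⟨c, hc⟩ := hd
  have hdvd : q ^ a - 1 ∣ q ^ N - 1 := by
    have := Nat.sub_dvd_pow_sub_pow (q ^ a) 1 c
    rwa [one_pow, ← pow_mul, ← hc] at this
  have hpa : q < q ^ a := by
    calc q = q ^ 1 := (pow_one q).symm
      _ < q ^ a := Nat.pow_lt_pow_right hp2 (by omega)
  have hpN : 1 < q ^ N := Nat.one_lt_pow hN0 hp2
  obtain ⟨e, he⟩ := hdvd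
  have hepos : e ≠ 0 := by
    rintro rfl
    omega
  have hu : orderOf (g ^ e) = q ^ a - 1 := by
    rw [orderOf_pow_of_dvd hepos (by rw [hord, he]; exact Dvd.intro_left _ rfl), hord, he]
    exact Nat.mul_div_cancel _ (Nat.pos_of_ne_zero hepos)
  refine ⟨((g ^ e : Kˣ) : K), ?_, ?_⟩
  · have h1 : (g ^ e) ^ (q ^ a - 1) = 1 := by rw [← hu]; exact pow_orderOf_eq_one _
    have h2 : (g ^ e) ^ (q ^ a) = g ^ e := by
      have : q ^ a = (q ^ a - 1) + 1 := by omega
      rw [this, pow_succ, h1, one_mul]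
    exact_mod_cast congrArg Units.val h2
  · intro h
    have h2 : (g ^ e) ^ q = g ^ e := by
      apply Units.ext
      exact_mod_cast h
    have h3 : (g ^ e) ^ (q - 1) = 1 := by
      have : q = (q - 1) + 1 := by omega
      rw [this, pow_succ] at h2
      exact mul_eq_right.1 h2
    have h4 := orderOf_dvd_of_pow_eq_one h3
    rw [hu] at h4
    have := Nat.le_of_dvd (by omega) h4
    omega

theorem exists_xy (p s t n : ℕ) [hp : Fact p.Prime] [CharP K p] (hs : s ≠ 0)
    (hK : Fintype.card K = (p ^ s) ^ t) (ht : t ≠ 0) (hn : 3 ≤ n) (hodd : n % 2 = 1) (hd : n ∣ t)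
    (ω : K) (hω : ω ^ (p ^ s) = ω) (hω0 : ω ≠ 0) :
    ∃ x y : K, x ^ ((p ^ s) ^ n) = x ∧ y ^ ((p ^ s) ^ n) = y ∧
      x + x ^ (p ^ s) = ω * (y * y ^ (p ^ s)) ∧ y ^ ((p ^ s) ^ 2) ≠ y := by
  classical
  set q := p ^ s with hq
  have hq2 : 2 ≤ q := hp.out.two_le.trans (Nat.le_self_pow hs p)
  obtain ⟨γ, hγ1, hγ2⟩ := exists_elt_q (K := K) q t n hq2 hK (by omega) ht hd
  set φ : K →+* K := iterateFrobenius K p s with hφ
  have hφd : ∀ z, φ z = z ^ q := fun z => by rw [hφ, iterateFrobenius_def]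
  set Φ : K →+* K := iterateFrobenius K p (s * n) with hΦ
  have hΦd : ∀ z, Φ z = z ^ (q ^ n) := fun z => by
    rw [hΦ, iterateFrobenius_def, hq, ← pow_mul]
  have hcomm : ∀ z, Φ (φ z) = φ (Φ z) := by
    intro z
    rw [hΦd, hφd, hΦd, hφd]
    exact pow_right_comm z q (q ^ n)
  have hfix2 : ∀ z, Φ z = z → φ (φ z) = z → φ z = z := by
    intro z h1 h2
    rw [hφd]
    refine fix_of_fix_two q n z hodd (by rw [← hΦd]; exact h1) ?_
    rw [hφd, hφd, ← pow_mul z q q, ← pow_two q] at h2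
    exact h2
  have hωΦ : Φ ω = ω := by
    rw [hΦd]
    have := pow_red q 1 ω (by rw [pow_one]; exact hω) n 0 (by simp [Nat.ModEq, Nat.mod_one])
    rw [this, pow_zero, pow_one]
  have hωφ : φ ω = ω := by rw [hφd]; exact hω
  have hγΦ : Φ γ = γ := by rw [hΦd]; exact hγ1
  have hγφ : φ γ ≠ γ := by rw [hφd]; exact hγ2
  have h22 : ∀ z, z ^ (q ^ 2) = φ (φ z) := by
    intro z
    rw [hφd, hφd, ← pow_mul z q q, ← pow_two q]
  simp only [← hΦd, ← hφd, h22]
  let E := {z : K // Φ z = z}
  by_cases hp2 : p = 2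
  · -- characteristic two
    have : CharP K 2 := by rw [← hp2]; infer_instance
    let g : E → E := fun z => ⟨z.1 * φ z.1, by rw [map_mul, hcomm, z.2]⟩
    have hinj : Function.Injective g := by
      rintro ⟨a, ha⟩ ⟨b, hb⟩ hab
      have h1 : a * φ a = b * φ b := congrArg Subtype.val hab
      apply Subtype.ext
      show a = b
      by_cases hb0 : b = 0
      · subst hb0
        rw [zero_mul] at h1
        rcases mul_eq_zero.1 h1 with h | h
        · exact h
        · exact (map_eq_zero φ).1 h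
      set r := a / b with hr
      have hφb : φ b ≠ 0 := (map_ne_zero φ).2 hb0
      have hrφ : r * φ r = 1 := by
        rw [hr, map_div₀, div_mul_div_comm, h1]
        exact div_self (mul_ne_zero hb0 hφb)
      have hr0 : r ≠ 0 := by
        intro h
        rw [h, zero_mul] at hrφ
        exact zero_ne_one hrφ
      have hr1 : φ r = r⁻¹ := eq_inv_of_mul_eq_one_right hrφ
      have hr2 : φ (φ r) = r := by rw [hr1, map_inv₀, hr1, inv_inv]
      have hrΦ : Φ r = r := by rw [hr, map_div₀, ha, hb]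
      have hr3 := hfix2 r hrΦ hr2
      rw [hr3] at hrφ
      have h5 : (r - 1) ^ 2 = 0 := by
        rw [sub_sq, one_pow, mul_one, pow_two, hrφ]
        have : (2 : K) = 0 := CharTwo.two_eq_zero
        linear_combination (1 - r) * this
      have h6 : r = 1 := sub_eq_zero.1 (pow_eq_zero_iff (two_ne_zero)|>.1 h5)
      rw [hr] at h6
      exact (div_eq_one_iff_eq hb0).1 h6
    have hsurj := Finite.injective_iff_surjective.1 hinj
    obtain ⟨⟨y, hy⟩, hy2⟩ := hsurj ⟨(γ + φ γ) / ω, by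
      rw [map_div₀, map_add, hcomm, hγΦ, hωΦ]⟩
    have hy3 : y * φ y = (γ + φ γ) / ω := congrArg Subtype.val hy2
    have hy4 : γ + φ γ = ω * (y * φ y) := by rw [hy3]; field_simp
    refine ⟨γ, y, hγΦ, hy, hy4, ?_⟩
    intro h
    have hyφ := hfix2 y hy h
    apply hγφ
    apply hfix2 γ hγΦ
    have h7 := congrArg φ hy4
    rw [map_add, map_mul, map_mul, hyφ, hωφ, hyφ] at h7
    rw [hyφ] at hy4
    linear_combination h7 - hy4
  · -- odd characteristic
    let f : E → E := fun z => ⟨z.1 + φ z.1, by rw [map_add, hcomm, z.2]⟩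
    have h20 : (2 : K) ≠ 0 := by
      intro h
      have h1 : ((2 : ℕ) : K) = 0 := by exact_mod_cast h
      rw [CharP.cast_eq_zero_iff K p] at h1
      exact hp2 ((Nat.prime_dvd_prime_iff_eq hp.out Nat.prime_two).1 h1)
    have hinj : Function.Injective f := by
      rintro ⟨a, ha⟩ ⟨b, hb⟩ hab
      have h1 : a + φ a = b + φ b := congrArg Subtype.val hab
      apply Subtype.ext
      show a = b
      have hd1 : φ (a - b) = -(a - b) := by
        rw [map_sub]; linear_combination h1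
      have hd2 : φ (φ (a - b)) = a - b := by
        rw [hd1, map_neg, hd1, neg_neg]
      have hd3 := hfix2 (a - b) (by rw [map_sub, ha, hb]) hd2
      rw [hd3] at hd1
      have : 2 * (a - b) = 0 := by linear_combination hd1
      exact sub_eq_zero.1 ((mul_eq_zero.1 this).resolve_left h20)
    have hsurj := Finite.injective_iff_surjective.1 hinj
    obtain ⟨⟨x, hx⟩, hx2⟩ := hsurj ⟨ω * (γ * φ γ), by
      rw [map_mul, map_mul, hcomm, hγΦ, hωΦ]⟩
    have hx3 : x + φ x = ω * (γ * φ γ) := congrArg Subtype.val hx2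
    refine ⟨x, γ, hx, hγΦ, hx3, ?_⟩
    intro h
    exact hγφ (hfix2 γ hγΦ h)

end Elements

section Main

theorem lower5q {F K : Type} [Field F] [Field K] [Fintype F] [Fintype K] [DecidableEq K]
    [Algebra F K] (p s t : ℕ) [hp : Fact p.Prime] [CharP K p] (hs : s ≠ 0)
    (hF : Fintype.card F = p ^ s) (hK : Fintype.card K = (p ^ s) ^ t) (ht : t ≠ 0)
    (ω : F) (hω0 : ω ≠ 0) (hω1 : ω ≠ 1) (n : ℕ) (hn : 1 ≤ n) (μ : Fin n → ℕ) (h3 : ∀ i, 3 ≤ μ i)
    (hodd : ∀ i, μ i % 2 = 1)
    (hco : Pairwise (Function.onFun Nat.Coprime μ)) (hd : ∀ i, μ i ∣ t) :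
    ∃ P : Submodule F (K → F), AffInv P ∧ P ≠ ⊤ ∧ LocalChar 5 P ∧
      ∀ k, SingleOrbit k P → n ≤ k := by
  classical
  have h2 : ∀ i, 2 ≤ μ i := fun i => by have := h3 i; omega
  have hfd : FiniteDimensional F K := Module.Finite.of_finite
  set q := p ^ s with hq
  set o : K := algebraMap F K ω with ho
  have hFq : ∀ c : F, (algebraMap F K c) ^ q = algebraMap F K c := by
    intro c
    rw [← map_pow, ← hF, FiniteField.pow_card]
  have ho0 : o ≠ 0 := (map_ne_zero _).2 hω0
  choose x y hx hy hxy hy2 using fun i =>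
    exists_xy (K := K) p s t (μ i) hs hK ht (h3 i) (hodd i) (hd i) o (hFq ω) ho0
  let Fr : ℕ → (K →+* K) := fun j => iterateFrobenius K p (s * j)
  have hFr : ∀ j z, Fr j z = z ^ (q ^ j) := by
    intro j z
    simp only [Fr, iterateFrobenius_def, hq, ← pow_mul]
  have hFrc : ∀ j (c : F), Fr j (algebraMap F K c) = algebraMap F K c := by
    intro j c
    rw [hFr]
    have := pow_red q 1 (algebraMap F K c) (by rw [pow_one]; exact hFq c) j 0
      (by simp [Nat.ModEq, Nat.mod_one])
    rw [this, pow_zero, pow_one]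
  have hadd : ∀ a b z, Fr (a + b) z = Fr a (Fr b z) := by
    intro a b z
    rw [hFr, hFr, hFr, ← pow_mul z (q ^ b) (q ^ a), ← pow_add q b a, add_comm b a]
  have hred : ∀ i a b, a ≡ b [MOD μ i] → Fr a (x i) = Fr b (x i) ∧ Fr a (y i) = Fr b (y i) := by
    intro i a b hab
    rw [hFr, hFr, hFr, hFr]
    exact ⟨pow_red q (μ i) _ (hx i) _ _ hab, pow_red q (μ i) _ (hy i) _ _ hab⟩
  have hxy' : ∀ i, x i + Fr 1 (x i) = o * (y i * Fr 1 (y i)) := by
    intro i
    rw [hFr, hFr, pow_one]
    exact hxy i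
  -- neighbours
  have hT1 : ∀ i a b, b ≡ a + 1 [MOD μ i] →
      Fr a (x i) + Fr b (x i) - o * (Fr a (y i) * Fr b (y i)) = 0 := by
    intro i a b hab
    rw [(hred i b (a + 1) hab).1, (hred i b (a + 1) hab).2, hadd, hadd]
    have := congrArg (Fr a) (hxy' i)
    rw [map_add, map_mul, map_mul, ho, hFrc] at this
    rw [ho, this, sub_self]
  -- distance three
  have hT3 : ∀ i a b, b ≡ a + 3 [MOD μ i] →
      Fr a (x i) + Fr b (x i) - o * (Fr a (y i) * Fr b (y i)) ≠ 0 := by
    intro i a b hab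
    rw [(hred i b (a + 3) hab).1, (hred i b (a + 3) hab).2, hadd, hadd]
    have e1 := hxy' i
    have e2 := congrArg (Fr 1) e1
    have e3 := congrArg (Fr 1) e2
    rw [map_add, map_mul, map_mul, ho, hFrc, ← hadd, ← hadd] at e2
    rw [map_add, map_mul, map_mul, map_add, map_mul, map_mul, ho, hFrc, hFrc, ← hadd, ← hadd,
      ← hadd, ← hadd] at e3
    norm_num at e2 e3
    have e4 : x i + Fr 3 (x i) - o * (y i * Fr 3 (y i)) =
        o * ((Fr 2 (y i) - y i) * (Fr 3 (y i) - Fr 1 (y i))) := by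
      rw [ho] at e1 ⊢
      linear_combination e1 - e2 + e3
    have e5 : Fr 2 (y i) - y i ≠ 0 := by
      rw [hFr]
      exact sub_ne_zero.2 (hy2 i)
    have e6 : Fr 3 (y i) - Fr 1 (y i) ≠ 0 := by
      have : Fr 3 (y i) - Fr 1 (y i) = Fr 1 (Fr 2 (y i) - y i) := by
        rw [map_sub, ← hadd]
      rw [this]
      exact (map_ne_zero (Fr 1)).2 e5
    have e7 : x i + Fr 3 (x i) - o * (y i * Fr 3 (y i)) ≠ 0 := by
      rw [e4]
      exact mul_ne_zero ho0 (mul_ne_zero e5 e6)
    have e8 : Fr a (x i) + Fr a (Fr 3 (x i)) - o * (Fr a (y i) * Fr a (Fr 3 (y i))) =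
        Fr a (x i + Fr 3 (x i) - o * (y i * Fr 3 (y i))) := by
      rw [map_sub, map_add, map_mul, map_mul, ho, hFrc]
    rw [e8]
    exact (map_ne_zero (Fr a)).2 e7
  choose u hu using fun A : Fin n => crt' μ h2 hco (fun m => if m = A then μ m - 2 else 0)
  choose v hv using fun A : Fin n => crt' μ h2 hco (fun m => if m = A then 1 else μ m - 1)
  set w : Fin n → K → F := fun m => w5q ω (x m) (y m) with hw
  have hquad : ∀ i a b, ∑ z, w i z • (Fr a z * Fr b z) =
      Fr a (x i) + Fr b (x i) - o * (Fr a (y i) * Fr b (y i)) := fun i a b =>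
    w5q_quad ω hω1 (x i) (y i) (Fr a) (Fr b) (hFrc a) (hFrc b)
  have hoff : ∀ A B : Fin n, A ≠ B → ∀ m, ∑ z, w m z • (Fr (u A) z * Fr (v B) z) = 0 := by
    intro A B hAB m
    rw [hquad]
    have hA := hu A m
    have hB := hv B m
    have hm3 := h3 m
    by_cases h1 : m = A
    · have h4 : m ≠ B := fun h => hAB (h1.symm.trans h)
      rw [if_pos h1] at hA
      rw [if_neg h4] at hB
      apply hT1
      refine hB.trans ?_
      have := (hA.symm.add_right 1)
      have e : μ m - 2 + 1 = μ m - 1 := by omega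
      rw [e] at this
      exact this
    · rw [if_neg h1] at hA
      by_cases h4 : m = B
      · rw [if_pos h4] at hB
        apply hT1
        exact hB.trans (hA.symm.add_right 1)
      · rw [if_neg h4] at hB
        have := hT1 m (v B) (u A) (by
          refine hA.trans ?_
          refine Nat.ModEq.trans ?_ (hB.symm.add_right 1)
          have e : μ m - 1 + 1 = μ m := by omega
          rw [e]
          simp [Nat.ModEq])
        linear_combination this
  have hdiag : ∀ A : Fin n, ∑ z, w A z • (Fr (u A) z * Fr (v A) z) ≠ 0 := by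
    intro A
    rw [hquad]
    apply hT3
    have hA := hu A A
    have hB := hv A A
    rw [if_pos rfl] at hA hB
    refine hB.trans ?_
    refine Nat.ModEq.trans ?_ (hA.symm.add_right 3)
    have hm3 := h3 A
    have e : μ A - 2 + 3 = 1 + μ A := by omega
    rw [e]
    simp [Nat.ModEq]
  refine ⟨space w, space_inv w, ?_, space_local w 5 (fun m => supp_w5q _ _ _), ?_⟩
  · exact space_ne_top w (fun z => Fr (u ⟨0, by omega⟩) z * Fr (v ⟨0, by omega⟩) z) ⟨0, by omega⟩
      (hdiag _)
  · intro k hk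
    have := lower_lin w (fun A => Fr (u A)) (fun A => Fr (v A))
      (fun m c => w5q_const ω hω1 _ _ c)
      (fun m A => w5q_lin ω hω1 _ _ _ (hFrc _))
      (fun m A => w5q_lin ω hω1 _ _ _ (hFrc _)) hoff (fun A => ⟨A, hdiag A⟩) k hk
    simpa using this

/-- no bound for `k ≥ 5`, for every fixed field with more than two elements -/
theorem unbounded5q (F : Type) [Field F] [Finite F] (hF2 : 3 ≤ Nat.card F) (k : ℕ) (hk : 5 ≤ k)
    (B : ℕ) : ∃ (K : Type) (_ : Field K) (_ : Finite K) (_ : Algebra F K),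
      ∃ P : Submodule F (K → F), AffInv P ∧ P ≠ ⊤ ∧ LocalChar k P ∧ B < kPrime P := by
  classical
  obtain ⟨t, ht0, μ, hμ3, hμo, hμc, hμd⟩ := exists_odd_primes (B + 1)
  have : Fintype F := Fintype.ofFinite F
  obtain ⟨p, hpc⟩ := CharP.exists F
  obtain ⟨s, hp, hs⟩ := FiniteField.card F p
  have : Fact p.Prime := ⟨hp⟩
  have : NeZero t := ⟨ht0⟩
  have hω : ∃ ω : F, ω ≠ 0 ∧ ω ≠ 1 := by
    by_contra hcon
    push Not at hcon
    have h1 : (Finset.univ : Finset F) ⊆ {0, 1} := by
      intro c _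
      by_cases hc : c = 0
      · simp [hc]
      · simp [hcon c hc]
    have h2 := (Finset.card_le_card h1).trans Finset.card_le_two
    rw [Finset.card_univ, ← Nat.card_eq_fintype_card] at h2
    omega
  obtain ⟨ω, hω0, hω1⟩ := hω
  have : Fintype (FiniteField.Extension F p t) := Fintype.ofFinite _
  have hcard : Nat.card (FiniteField.Extension F p t) = (p ^ (s : ℕ)) ^ t := by
    rw [FiniteField.natCard_extension, Nat.card_eq_fintype_card, hs]
  have hcard' := hcard
  rw [Nat.card_eq_fintype_card] at hcard'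
  have : CharP (FiniteField.Extension F p t) p :=
    charP_of_card_eq_prime_pow (f := s * t) (by rw [hcard', ← pow_mul])
  obtain ⟨P, h1, h2, h3, h4⟩ := lower5q (F := F) (K := FiniteField.Extension F p t) p s t
    s.2.ne' hs hcard' ht0 ω hω0 hω1 (B + 1) (by omega) μ hμ3 hμo hμc hμd
  have h5 := upper' (F := F) p (s * t) hp (by rw [hcard, ← pow_mul]) 5 P h1 h2 h3
  have h6 := h4 _ h5.1
  exact ⟨FiniteField.Extension F p t, inferInstance, inferInstance, inferInstance, P, h1, h2,
    local_mono 5 k hk P h3, by omega⟩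

end Main

end H79SO
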