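import Mathlib
import Pool.Agent.KS6_26.SO.FiveQ2

/-! Polynomial representation and the grading. -/

open Finset

namespace H79SO.K4

variable {F K : Type} [Field F] [Field K] [Algebra F K]

/-- all affine images of the word `(κ, z)` kill `f` -/
def KF (κ : Fin 4 → F) (z : Fin 4 → K) (f : K → F) : Prop :=
  ∀ a b : K, a ≠ 0 → ∑ l, κ l * f (a * z l + b) = 0

/-- all affine images of the word `(κ, z)` kill the power `x ^ d` -/
def KP (κ : Fin 4 → F) (z : Fin 4 → K) (d : ℕ) : Prop :=
  ∀ a b : K, a ≠ 0 → ∑ l, κ l • (a * z l + b) ^ d = 0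

variable [Fintype K] [DecidableEq K]

/-- polynomial representation -/
theorem exists_rep (f : K → F) : ∃ p : ℕ → K, ∀ x, algebraMap F K (f x) =
    ∑ d ∈ range (Fintype.card K), p d * x ^ d := by
  classical
  set P := Lagrange.interpolate (Finset.univ : Finset K) id (fun x => algebraMap F K (f x)) with hP
  have hinj : Set.InjOn (id : K → K) ((Finset.univ : Finset K) : Set K) := fun _ _ _ _ h => h
  have hdeg : P.degree < Fintype.card K := by
    have := Lagrange.degree_interpolate_lt (fun x => algebraMap F K (f x)) hinj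
    rwa [Finset.card_univ] at this
  have hnat : P.natDegree < Fintype.card K := by
    by_cases h0 : P = 0
    · rw [h0, Polynomial.natDegree_zero]
      exact Fintype.card_pos
    · exact (Polynomial.natDegree_lt_iff_degree_lt h0).2 hdeg
  refine ⟨fun d => P.coeff d, fun x => ?_⟩
  rw [← Polynomial.eval_eq_sum_range' hnat x]
  exact (Lagrange.eval_interpolate_at_node (fun x => algebraMap F K (f x)) hinj
    (Finset.mem_univ x)).symm

/-- the sums with the powers of the scaling factor -/
theorem scaled (κ : Fin 4 → F) (z : Fin 4 → K) (f : K → F) (h : KF κ z f) (p : ℕ → K)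
    (hp : ∀ x, algebraMap F K (f x) = ∑ d ∈ range (Fintype.card K), p d * x ^ d)
    (a b : K) (ha : a ≠ 0) (e : ℕ) :
    ∑ d ∈ range (Fintype.card K), (p d * ∑ l, κ l • (a * z l + b) ^ d) *
      (if Fintype.card K - 1 ∣ e + d then (-1 : K) else 0) = 0 := by
  have h1 : ∀ t : Kˣ, ∑ d ∈ range (Fintype.card K),
      (p d * ∑ l, κ l • (a * z l + b) ^ d) * ((t ^ (e + d) : K)) = 0 := by
    intro t
    have h2 := h (t * a) (t * b) (mul_ne_zero t.ne_zero ha)
    have h3 := congrArg (algebraMap F K) h2
    rw [map_sum, map_zero] at h3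
    have h4 : ∑ l, algebraMap F K (κ l * f (↑t * a * z l + ↑t * b)) =
        ∑ d ∈ range (Fintype.card K), (p d * ∑ l, κ l • (a * z l + b) ^ d) * (t ^ d : K) := by
      have h5 : ∀ l, algebraMap F K (κ l * f (↑t * a * z l + ↑t * b)) =
          ∑ d ∈ range (Fintype.card K), (p d * (κ l • (a * z l + b) ^ d)) * (t ^ d : K) := by
        intro l
        rw [map_mul, hp, Finset.mul_sum]
        refine Finset.sum_congr rfl fun d _ => ?_
        have : (↑t * a * z l + ↑t * b : K) = t * (a * z l + b) := by ring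
        rw [this, mul_pow, Algebra.smul_def]
        ring
      rw [Finset.sum_congr rfl fun l _ => h5 l, Finset.sum_comm]
      refine Finset.sum_congr rfl fun d _ => ?_
      rw [← Finset.sum_mul, ← Finset.mul_sum]
    rw [h4] at h3
    have h6 : ∑ d ∈ range (Fintype.card K), (p d * ∑ l, κ l • (a * z l + b) ^ d) *
        (t ^ (e + d) : K) = (t ^ e : K) * ∑ d ∈ range (Fintype.card K),
          (p d * ∑ l, κ l • (a * z l + b) ^ d) * (t ^ d : K) := by
      rw [Finset.mul_sum]
      refine Finset.sum_congr rfl fun d _ => ?_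
      rw [pow_add]; ring
    rw [h6, h3, mul_zero]
  have h7 : ∑ t : Kˣ, ∑ d ∈ range (Fintype.card K),
      (p d * ∑ l, κ l • (a * z l + b) ^ d) * ((t ^ (e + d) : K)) = 0 :=
    Finset.sum_eq_zero fun t _ => h1 t
  rw [Finset.sum_comm] at h7
  refine Eq.trans ?_ h7
  refine Finset.sum_congr rfl fun d _ => ?_
  rw [← Finset.mul_sum]
  congr 1
  exact (FiniteField.sum_pow_units K (e + d)).symm

theorem dvd_iff (Q e d : ℕ) (hQ : 2 < Q) (hd : d < Q) (he : 0 < e) (heQ : e < Q - 1) :
    Q - 1 ∣ e + d ↔ d = Q - 1 - e := by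
  constructor
  · rintro ⟨c, hc⟩
    have h1 : c = 1 := by
      have h2 : 0 < c := by
        rcases Nat.eq_zero_or_pos c with h | h
        · subst h; omega
        · exact h
      have h3 : c < 2 := by
        by_contra hcon
        push Not at hcon
        have : (Q - 1) * 2 ≤ (Q - 1) * c := Nat.mul_le_mul_left _ hcon
        omega
      omega
    subst h1
    omega
  · intro h
    rw [h]
    exact ⟨1, by omega⟩

/-- the coefficients in the middle -/
theorem mid (κ : Fin 4 → F) (z : Fin 4 → K) (f : K → F) (h : KF κ z f) (p : ℕ → K)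
    (hp : ∀ x, algebraMap F K (f x) = ∑ d ∈ range (Fintype.card K), p d * x ^ d)
    (m : ℕ) (hm : 0 < m) (hmQ : m < Fintype.card K - 1) (hpm : p m ≠ 0) : KP κ z m := by
  intro a b ha
  have h1 := scaled κ z f h p hp a b ha (Fintype.card K - 1 - m)
  have hQ : 2 < Fintype.card K := by omega
  rw [Finset.sum_eq_single m] at h1
  · rw [if_pos] at h1
    · have h2 : p m * ∑ l, κ l • (a * z l + b) ^ m = 0 := by
        linear_combination -h1
      exact (mul_eq_zero.1 h2).resolve_left hpm
    · exact ⟨1, by omega⟩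
  · intro d hd hdm
    rw [Finset.mem_range] at hd
    rw [if_neg, mul_zero]
    rw [dvd_iff _ _ d hQ hd (by omega) (by omega)]
    omega
  · intro hm'
    exact absurd (Finset.mem_range.2 (by omega)) hm'

/-- the two ends -/
theorem ends (κ : Fin 4 → F) (z : Fin 4 → K) (f : K → F) (h : KF κ z f) (p : ℕ → K)
    (hp : ∀ x, algebraMap F K (f x) = ∑ d ∈ range (Fintype.card K), p d * x ^ d)
    (hQ : 2 < Fintype.card K) (a b : K) (ha : a ≠ 0) :
    p 0 * ∑ l, κ l • (1 : K) + p (Fintype.card K - 1) *
      ∑ l, κ l • (a * z l + b) ^ (Fintype.card K - 1) = 0 := by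
  have h1 := scaled κ z f h p hp a b ha 0
  have hsub : ({0, Fintype.card K - 1} : Finset ℕ) ⊆ range (Fintype.card K) := by
    intro d hd
    simp only [Finset.mem_insert, Finset.mem_singleton] at hd
    rw [Finset.mem_range]
    omega
  rw [← Finset.sum_subset hsub] at h1
  · rw [Finset.sum_pair (by omega)] at h1
    rw [if_pos (by simp), if_pos (by simp)] at h1
    simp only [pow_zero] at h1
    linear_combination -h1
  · intro d hd hd2
    rw [Finset.mem_range] at hd
    simp only [Finset.mem_insert, Finset.mem_singleton, not_or] at hd2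
    rw [if_neg, mul_zero]
    rw [Nat.zero_add]
    intro hdvd
    have := Nat.le_of_dvd (by omega) hdvd
    omega

theorem top_zero (κ : Fin 4 → F) (z : Fin 4 → K) (hκ : κ ≠ 0) (hz : Function.Injective z)
    (f : K → F) (h : KF κ z f) (p : ℕ → K)
    (hp : ∀ x, algebraMap F K (f x) = ∑ d ∈ range (Fintype.card K), p d * x ^ d)
    (hQ : 4 < Fintype.card K) : p (Fintype.card K - 1) = 0 := by
  obtain ⟨b0, hb0⟩ : ∃ b0 : K, ∀ l, z l + b0 ≠ 0 := by
    by_contra hcon
    push Not at hcon
    have hsub : (Finset.univ : Finset K) ⊆ Finset.univ.image (fun l => -z l) := by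
      intro x _
      obtain ⟨l, hl⟩ := hcon x
      rw [Finset.mem_image]
      exact ⟨l, Finset.mem_univ _, by linear_combination -hl⟩
    have h2 := Finset.card_le_card hsub
    have h3 := Finset.card_image_le (s := (Finset.univ : Finset (Fin 4))) (f := fun l => -z l)
    rw [Finset.card_univ] at h2
    rw [Finset.card_fin] at h3
    omega
  obtain ⟨l0, hl0⟩ := Function.ne_iff.1 hκ
  have e1 := ends κ z f h p hp (by omega) 1 b0 one_ne_zero
  have e2 := ends κ z f h p hp (by omega) 1 (-z l0) one_ne_zero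
  have f1 : ∀ l, κ l • (1 * z l + b0) ^ (Fintype.card K - 1) = κ l • (1 : K) := by
    intro l
    rw [one_mul, FiniteField.pow_card_sub_one_eq_one _ (hb0 l)]
  have f2 : ∀ l, κ l • (1 * z l + -z l0) ^ (Fintype.card K - 1) =
      κ l • (1 : K) - (if l = l0 then κ l • (1 : K) else 0) := by
    intro l
    by_cases hl : l = l0
    · rw [if_pos hl, hl, one_mul, add_neg_cancel, zero_pow (by omega), smul_zero, sub_self]
    · rw [if_neg hl, sub_zero, FiniteField.pow_card_sub_one_eq_one]
      rw [one_mul]
      intro h0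
      exact hl (hz (by linear_combination h0))
  rw [Finset.sum_congr rfl fun l _ => f1 l] at e1
  rw [Finset.sum_congr rfl fun l _ => f2 l, Finset.sum_sub_distrib,
    Finset.sum_ite_eq' Finset.univ l0] at e2
  simp only [Finset.mem_univ, if_true] at e2
  have e3 : p (Fintype.card K - 1) * (κ l0 • (1 : K)) = 0 := by
    linear_combination e1 - e2
  refine (mul_eq_zero.1 e3).resolve_right ?_
  rw [Algebra.smul_def, mul_one]
  exact (map_ne_zero _).2 hl0

/-- every degree is killed -/
theorem degs (κ : Fin 4 → F) (z : Fin 4 → K) (f : K → F) (h : KF κ z f) (p : ℕ → K)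
    (hp : ∀ x, algebraMap F K (f x) = ∑ d ∈ range (Fintype.card K), p d * x ^ d)
    (hQ : 4 < Fintype.card K) (htop : p (Fintype.card K - 1) = 0) (m : ℕ)
    (hm : m < Fintype.card K) (hpm : p m ≠ 0) : KP κ z m ∧ m < Fintype.card K - 1 := by
  have hm1 : m ≠ Fintype.card K - 1 := by
    rintro rfl
    exact hpm htop
  have hm2 : m < Fintype.card K - 1 := by omega
  refine ⟨?_, hm2⟩
  rcases Nat.eq_zero_or_pos m with h0 | h0
  · subst h0
    intro a b ha
    have := ends κ z f h p hp (by omega) a b ha
    rw [htop, zero_mul, add_zero] at this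
    simpa using (mul_eq_zero.1 this).resolve_left hpm
  · exact mid κ z f h p hp m h0 hm2 hpm

theorem of_degs (κ : Fin 4 → F) (z : Fin 4 → K) (f : K → F) (p : ℕ → K)
    (hp : ∀ x, algebraMap F K (f x) = ∑ d ∈ range (Fintype.card K), p d * x ^ d)
    (h : ∀ m, m < Fintype.card K → p m ≠ 0 → KP κ z m) : KF κ z f := by
  intro a b ha
  apply (algebraMap F K).injective
  rw [map_sum, map_zero]
  have h5 : ∀ l, algebraMap F K (κ l * f (a * z l + b)) =
      ∑ d ∈ range (Fintype.card K), p d * (κ l • (a * z l + b) ^ d) := by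
    intro l
    rw [map_mul, hp, Finset.mul_sum]
    refine Finset.sum_congr rfl fun d _ => ?_
    rw [Algebra.smul_def]
    ring
  rw [Finset.sum_congr rfl fun l _ => h5 l, Finset.sum_comm]
  refine Finset.sum_eq_zero fun d hd => ?_
  rw [← Finset.mul_sum]
  by_cases hpd : p d = 0
  · rw [hpd, zero_mul]
  · rw [h d (Finset.mem_range.1 hd) hpd a b ha, mul_zero]

end H79SO.K4
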