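import Mathlib
import Pool.Agent.KS6_26.SO.K4Poly

/-! The powers killed by four point words: ring homomorphisms and products of two of them. -/

open Finset

namespace H79SO.K4

variable {F K : Type} [Field F] [Field K] [Algebra F K] [Fintype K] [DecidableEq K]

/-- the sum of the coefficients vanishes -/
theorem sum_zero (κ : Fin 4 → F) (z : Fin 4 → K) (d : ℕ) (hd : 0 < d)
    (hdQ : d < Fintype.card K - 1) (h : KP κ z d) : ∑ l, κ l • (1 : K) = 0 := by
  have hcast : (Fintype.card K : K) = 0 := Nat.cast_card_eq_zero K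
  have key : ∀ w : K, ∑ a : K, (a * w + 1) ^ d = 0 := by
    intro w
    by_cases hw : w = 0
    · subst hw
      simp [hcast]
    · have e : ∑ a : K, (a * w + 1) ^ d = ∑ a : K, a ^ d :=
        Equiv.sum_comp ((Equiv.mulRight₀ w hw).trans (Equiv.addRight 1)) (fun x => x ^ d)
      rw [e]
      exact FiniteField.sum_pow_lt_card_sub_one K d hdQ
  have h1 : ∑ a : K, ∑ l, κ l • (a * z l + 1) ^ d = 0 := by
    rw [Finset.sum_comm]
    refine Finset.sum_eq_zero fun l _ => ?_
    rw [← Finset.smul_sum, key, smul_zero]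
  rw [Finset.sum_eq_single (0 : K) (fun a _ ha => h a 1 ha)
    (fun h => absurd (Finset.mem_univ _) h)] at h1
  simpa using h1

/-- the relation for all `a` -/
theorem all_a (κ : Fin 4 → F) (z : Fin 4 → K) (d : ℕ) (hd : 0 < d)
    (hdQ : d < Fintype.card K - 1) (h : KP κ z d) (a b : K) :
    ∑ l, κ l • (a * z l + b) ^ d = 0 := by
  by_cases ha : a = 0
  · subst ha
    have h1 := sum_zero κ z d hd hdQ h
    have h2 : ∑ l, κ l • (0 * z l + b) ^ d = (∑ l, κ l • (1 : K)) * b ^ d := by
      rw [Finset.sum_mul]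
      refine Finset.sum_congr rfl fun l _ => ?_
      rw [zero_mul, zero_add, smul_mul_assoc, one_mul]
    rw [h2, h1, zero_mul]
  · exact h a b ha

theorem van3 (κ : Fin 4 → F) (z : Fin 4 → K) (hκ : κ ≠ 0) (hz : Function.Injective z) (d : ℕ)
    (hd : 0 < d) (hdQ : d < Fintype.card K - 1) (h : KP κ z d) :
    Van 3 (fun x : K => x ^ d) := by
  obtain ⟨l0, hl0⟩ := Function.ne_iff.1 hκ
  have hc : algebraMap F K (κ l0) ≠ 0 := (map_ne_zero _).2 hl0
  set s : Finset K := Finset.univ.image z with hs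
  have hcard : s.card = 3 + 1 := by
    rw [hs, Finset.card_image_of_injective _ hz, Finset.card_fin]
  set w : K → K := fun x => ∑ l, if z l = x then algebraMap F K (κ l) else 0 with hw
  have hwz : ∀ l, w (z l) = algebraMap F K (κ l) := by
    intro l
    rw [hw]
    simp only
    rw [Finset.sum_eq_single l]
    · rw [if_pos rfl]
    · intro m _ hm
      rw [if_neg]
      intro h
      exact hm (hz h)
    · intro h
      exact absurd (Finset.mem_univ _) h
  have hrel : ∀ a b : K, ∑ i ∈ s, (fun i x => w i * x ^ d) i (b + a * i) = 0 := by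
    intro a b
    rw [hs, Finset.sum_image (fun _ _ _ _ h => hz h)]
    have := all_a κ z d hd hdQ h a b
    rw [← this]
    refine Finset.sum_congr rfl fun l _ => ?_
    simp only
    rw [hwz, Algebra.smul_def, add_comm]
  have this : Van 3 (fun x : K => w (z l0) * x ^ d) :=
    van_of_rel 3 s hcard (fun i x => w i * x ^ d) hrel (z l0)
      (Finset.mem_image_of_mem _ (Finset.mem_univ _))
  rw [hwz] at this
  have h2 := van_smul 3 (algebraMap F K (κ l0))⁻¹ _ this
  have e : (fun x : K => x ^ d) =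
      fun x => (algebraMap F K (κ l0))⁻¹ * (algebraMap F K (κ l0) * x ^ d) := by
    funext x
    rw [← mul_assoc, inv_mul_cancel₀ hc, one_mul]
  rw [e]
  exact h2

/-- third differences, written out -/
theorem van3_iff (f : K → K) (h : Van 3 f) (a u v x : K) :
    (f (x + u + v + a) - f (x + u + a) - f (x + v + a) + f (x + a)) -
      (f (x + u + v) - f (x + u) - f (x + v) + f x) = 0 := by
  have := h a u v x
  simp only at this
  have e1 : x + v + u = x + u + v := by ring
  rw [e1] at this
  linear_combination this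

/-- the derivative step -/
theorem deriv_step (e : ℕ) (he : 1 < e) (heQ : e < Fintype.card K - 1) (hek : (e : K) ≠ 0)
    (h : Van 3 (fun x : K => x ^ e)) (u v : K) :
    (u + v) ^ (e - 1) = u ^ (e - 1) + v ^ (e - 1) := by
  set E : ℕ → K := fun j => (u + v) ^ j - u ^ j - v ^ j + 0 ^ j with hE
  have h1 : ∀ a : K, ∑ j ∈ range e, (e.choose j : K) * E j * a ^ (e - j) = 0 := by
    intro a
    have h2 := van3_iff _ h a u v 0
    simp only [zero_add] at h2
    have h3 : ∀ y : K, (y + a) ^ e = ∑ j ∈ range e, y ^ j * a ^ (e - j) * (e.choose j : K) +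
        y ^ e := by
      intro y
      rw [add_pow, Finset.sum_range_succ]
      simp
    have h4 : a ^ e = ∑ j ∈ range e, (0 : K) ^ j * a ^ (e - j) * (e.choose j : K) + 0 ^ e := by
      have := h3 0
      rwa [zero_add] at this
    rw [h3 (u + v), h3 u, h3 v, h4] at h2
    have h5 : ∑ j ∈ range e, (e.choose j : K) * E j * a ^ (e - j) =
        ∑ j ∈ range e, (u + v) ^ j * a ^ (e - j) * (e.choose j : K) -
        ∑ j ∈ range e, u ^ j * a ^ (e - j) * (e.choose j : K) -
        ∑ j ∈ range e, v ^ j * a ^ (e - j) * (e.choose j : K) +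
        ∑ j ∈ range e, (0 : K) ^ j * a ^ (e - j) * (e.choose j : K) := by
      rw [← Finset.sum_sub_distrib, ← Finset.sum_sub_distrib, ← Finset.sum_add_distrib]
      refine Finset.sum_congr rfl fun j _ => ?_
      rw [hE]; ring
    rw [h5]
    linear_combination h2
  have h6 : ∑ t : Kˣ, (t : K) ^ (Fintype.card K - 2) *
      ∑ j ∈ range e, (e.choose j : K) * E j * (t : K) ^ (e - j) = 0 :=
    Finset.sum_eq_zero fun t _ => by rw [h1, mul_zero]
  have h7 : ∀ t : Kˣ, (t : K) ^ (Fintype.card K - 2) *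
      ∑ j ∈ range e, (e.choose j : K) * E j * (t : K) ^ (e - j) =
      ∑ j ∈ range e, (e.choose j : K) * E j * ((t ^ (Fintype.card K - 2 + (e - j)) : K)) := by
    intro t
    rw [Finset.mul_sum]
    refine Finset.sum_congr rfl fun j _ => ?_
    rw [pow_add]; ring
  rw [Finset.sum_congr rfl fun t _ => h7 t, Finset.sum_comm] at h6
  have h8 : ∑ j ∈ range e, (e.choose j : K) * E j *
      (if Fintype.card K - 1 ∣ Fintype.card K - 2 + (e - j) then (-1 : K) else 0) = 0 := by
    refine Eq.trans ?_ h6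
    refine Finset.sum_congr rfl fun j _ => ?_
    rw [← Finset.mul_sum]
    congr 1
    exact (FiniteField.sum_pow_units K _).symm
  rw [Finset.sum_eq_single (e - 1)] at h8
  · rw [if_pos ⟨1, by omega⟩] at h8
    have h9 : (e.choose (e - 1) : K) = e := by
      rw [Nat.choose_symm_of_eq_add (by omega : e = (e - 1) + 1), Nat.choose_one_right]
    rw [h9] at h8
    have h10 : (e : K) * E (e - 1) = 0 := by linear_combination -h8
    have h11 := (mul_eq_zero.1 h10).resolve_left hek
    rw [hE] at h11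
    simp only at h11
    rw [zero_pow (by omega)] at h11
    linear_combination h11
  · intro j hj hje
    rw [Finset.mem_range] at hj
    rw [if_neg, mul_zero]
    rintro ⟨c, hc⟩
    have h2 : 0 < c := by
      rcases Nat.eq_zero_or_pos c with h | h
      · subst h; omega
      · exact h
    have h3 : c < 2 := by
      by_contra hcon
      push Not at hcon
      have : (Fintype.card K - 1) * 2 ≤ (Fintype.card K - 1) * c := Nat.mul_le_mul_left _ hcon
      omega
    have h4 : c = 1 := by omega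
    subst h4
    omega
  · intro h
    exact absurd (Finset.mem_range.2 (by omega)) h

/-- a homomorphism from an additive power -/
theorem hom_of_pow (e : ℕ) (he : e ≠ 0) (h : ∀ u v : K, (u + v) ^ e = u ^ e + v ^ e) :
    ∃ σ : K →+* K, ∀ x, x ^ e = σ x :=
  ⟨{ toFun := fun x => x ^ e
     map_one' := one_pow e
     map_mul' := fun x y => mul_pow x y e
     map_zero' := zero_pow he
     map_add' := h }, fun _ => rfl⟩

theorem van_of_frob (p i : ℕ) [Fact p.Prime] [CharP K p] : ∀ (n : ℕ) (f : K → K),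
    Van n (fun x => f x ^ (p ^ i)) → Van n f := by
  intro n
  induction n with
  | zero =>
    intro f h x
    exact pow_eq_zero_iff (pow_ne_zero i (Fact.out : p.Prime).ne_zero) |>.1 (h x)
  | succ n ih =>
    intro f h a
    apply ih
    have h1 : Van n (fun x => f (x + a) ^ (p ^ i) - f x ^ (p ^ i)) := h a
    have e : (fun x => (f (x + a) - f x) ^ (p ^ i)) =
        fun x => f (x + a) ^ (p ^ i) - f x ^ (p ^ i) := by
      funext x
      have h2 := map_sub (iterateFrobenius K p i) (f (x + a)) (f x)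
      simpa only [iterateFrobenius_def] using h2
    rw [e]
    exact h1

/-- the powers killed by a word are homomorphisms or products of two homomorphisms -/
theorem classify (κ : Fin 4 → F) (z : Fin 4 → K) (hκ : κ ≠ 0) (hz : Function.Injective z) (d : ℕ)
    (hd : 0 < d) (hdQ : d < Fintype.card K - 1) (h : KP κ z d) :
    (∃ σ : K →+* K, ∀ x, x ^ d = σ x) ∨
      ((∃ σ τ : K →+* K, ∀ x, x ^ d = σ x * τ x) ∧ ¬ ∃ σ : K →+* K, ∀ x, x ^ d = σ x) := by
  by_cases hadd : ∃ σ : K →+* K, ∀ x, x ^ d = σ x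
  · exact Or.inl hadd
  right
  refine ⟨?_, hadd⟩
  obtain ⟨p, hpc⟩ := CharP.exists K
  have hp : Fact p.Prime := ⟨CharP.char_is_prime K p⟩
  obtain ⟨i, e, hpe, hde⟩ := Nat.exists_eq_pow_mul_and_not_dvd hd.ne' p hp.out.ne_one
  have hv := van3 κ z hκ hz d hd hdQ h
  have hv2 : Van 3 (fun x : K => x ^ e) := by
    apply van_of_frob p i
    have e1 : (fun x : K => (x ^ e) ^ p ^ i) = fun x : K => x ^ d := by
      funext x
      rw [← pow_mul, hde, mul_comm]
    rw [e1]
    exact hv
  have hek : (e : K) ≠ 0 := by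
    rw [Ne, CharP.cast_eq_zero_iff K p]
    exact hpe
  have hed : e ≤ d := by
    rw [hde]
    exact Nat.le_mul_of_pos_left _ (pow_pos hp.out.pos i)
  have he0 : 0 < e := by
    rcases Nat.eq_zero_or_pos e with h | h
    · exact absurd (by rw [h]; exact dvd_zero p) hpe
    · exact h
  rcases Nat.lt_or_ge 1 e with he1 | he1
  · have hstep := deriv_step e he1 (by omega) hek hv2
    obtain ⟨σ, hσ⟩ := hom_of_pow (e - 1) (by omega) hstep
    refine ⟨iterateFrobenius K p i, (iterateFrobenius K p i).comp σ, fun x => ?_⟩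
    rw [RingHom.comp_apply, ← hσ, ← map_mul, ← pow_succ', iterateFrobenius_def, ← pow_mul, hde]
    congr 1
    rw [Nat.sub_add_cancel he0, mul_comm]
  · exfalso
    apply hadd
    refine ⟨iterateFrobenius K p i, fun x => ?_⟩
    have : e = 1 := by omega
    rw [iterateFrobenius_def, hde, this, mul_one]

/-- linear condition -/
def LL (κ : Fin 4 → F) (z : Fin 4 → K) (σ : K →+* K) : Prop := ∑ l, κ l • σ (z l) = 0

/-- quadratic condition -/
def QQ (κ : Fin 4 → F) (z : Fin 4 → K) (σ τ : K →+* K) : Prop :=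
  ∑ l, κ l • (σ (z l) * τ (z l)) = 0

theorem LL_of_KP (κ : Fin 4 → F) (z : Fin 4 → K) (d : ℕ) (σ : K →+* K) (hσ : ∀ x, x ^ d = σ x)
    (h : KP κ z d) : LL κ z σ := by
  have := h 1 0 one_ne_zero
  simp only [one_mul, add_zero, hσ] at this
  exact this

theorem KP_of_LL (κ : Fin 4 → F) (z : Fin 4 → K) (d : ℕ) (σ : K →+* K) (hσ : ∀ x, x ^ d = σ x)
    (h0 : ∑ l, κ l • (1 : K) = 0) (h : LL κ z σ) : KP κ z d := by
  intro a b _
  simp only [hσ, map_add, map_mul]
  have : ∑ l, κ l • (σ a * σ (z l) + σ b) = σ a * ∑ l, κ l • σ (z l) +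
      σ b * ∑ l, κ l • (1 : K) := by
    rw [Finset.mul_sum, Finset.mul_sum, ← Finset.sum_add_distrib]
    refine Finset.sum_congr rfl fun l _ => ?_
    simp only [Algebra.smul_def]
    ring
  rw [this, h0]
  unfold LL at h
  rw [h]; ring

theorem QQ_of_KP (κ : Fin 4 → F) (z : Fin 4 → K) (d : ℕ) (σ τ : K →+* K)
    (hσ : ∀ x, x ^ d = σ x * τ x) (hna : ¬ ∃ σ : K →+* K, ∀ x, x ^ d = σ x)
    (h0 : ∑ l, κ l • (1 : K) = 0) (h : KP κ z d) : QQ κ z σ τ ∧ LL κ z σ ∧ LL κ z τ := by
  have h1 : QQ κ z σ τ := by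
    have := h 1 0 one_ne_zero
    simp only [one_mul, add_zero, hσ] at this
    exact this
  have h2 : ∀ a : K, a ≠ 0 → σ a * ∑ l, κ l • σ (z l) + τ a * ∑ l, κ l • τ (z l) = 0 := by
    intro a ha
    have h3 := h a 1 ha
    simp only [hσ] at h3
    rw [expand κ z σ τ a 1, h0] at h3
    unfold QQ at h1
    rw [h1, map_one, map_one] at h3
    linear_combination h3
  have h3 := h2 1 one_ne_zero
  rw [map_one, map_one, one_mul, one_mul] at h3
  have h4 : ∑ l, κ l • σ (z l) = 0 := by
    by_cases hst : σ = τ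
    · subst hst
      by_cases h20 : (2 : K) = 0
      · exfalso
        apply hna
        have : CharP K 2 := CharTwo.of_one_ne_zero_of_two_eq_zero one_ne_zero h20
        have : Fact (Nat.Prime 2) := ⟨Nat.prime_two⟩
        refine ⟨(frobenius K 2).comp σ, fun x => ?_⟩
        rw [hσ, RingHom.comp_apply, frobenius_def, pow_two]
      · have : 2 * ∑ l, κ l • σ (z l) = 0 := by linear_combination h3
        exact (mul_eq_zero.1 this).resolve_left h20
    · have : ∃ a, σ a ≠ τ a := by
        by_contra hcon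
        push Not at hcon
        exact hst (RingHom.ext hcon)
      obtain ⟨a, ha⟩ := this
      have ha0 : a ≠ 0 := by
        rintro rfl
        simp at ha
      have h5 := h2 a ha0
      have h6 : (σ a - τ a) * ∑ l, κ l • σ (z l) = 0 := by
        linear_combination h5 - τ a * h3
      exact (mul_eq_zero.1 h6).resolve_left (sub_ne_zero.2 ha)
  rw [h4, zero_add] at h3
  exact ⟨h1, h4, h3⟩

theorem KP_of_QQ (κ : Fin 4 → F) (z : Fin 4 → K) (d : ℕ) (σ τ : K →+* K)
    (hσ : ∀ x, x ^ d = σ x * τ x) (h0 : ∑ l, κ l • (1 : K) = 0)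
    (h : QQ κ z σ τ) (h1 : LL κ z σ) (h2 : LL κ z τ) : KP κ z d := by
  intro a b _
  simp only [hσ]
  unfold QQ at h
  unfold LL at h1 h2
  rw [expand κ z σ τ a b, h, h1, h2, h0]
  ring

/-- words with at most three points never vanish on quadratic functions -/
theorem three_points (κ : Fin 4 → F) (z : Fin 4 → K) (hκ : κ ≠ 0) (hz : Function.Injective z)
    (σ τ : K →+* K) (h0 : ∑ l, κ l • (1 : K) = 0)
    (h : QQ κ z σ τ) (h1 : LL κ z σ) (h2 : LL κ z τ) (l : Fin 4) (hl : κ l = 0) : False := by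
  apply hκ
  funext k
  show κ k = 0
  by_cases hkl : k = l
  · rw [hkl]; exact hl
  have hij : ∀ l k : Fin 4, k ≠ l → ∃ i j : Fin 4, i ≠ k ∧ j ≠ k ∧
      ∀ m : Fin 4, m = l ∨ m = k ∨ m = i ∨ m = j := by decide
  obtain ⟨i, j, hik, hjk, hall⟩ := hij l k hkl
  unfold QQ at h
  unfold LL at h1 h2
  have h3 : ∑ m, κ m • ((σ (z m) - σ (z i)) * (τ (z m) - τ (z j))) = 0 := by
    have e : ∑ m, κ m • ((σ (z m) - σ (z i)) * (τ (z m) - τ (z j))) =
        ∑ m, κ m • (σ (z m) * τ (z m)) - τ (z j) * ∑ m, κ m • σ (z m) -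
        σ (z i) * ∑ m, κ m • τ (z m) + σ (z i) * τ (z j) * ∑ m, κ m • (1 : K) := by
      rw [Finset.mul_sum, Finset.mul_sum, Finset.mul_sum, ← Finset.sum_sub_distrib,
        ← Finset.sum_sub_distrib, ← Finset.sum_add_distrib]
      refine Finset.sum_congr rfl fun m _ => ?_
      simp only [Algebra.smul_def]
      ring
    rw [e, h, h1, h2, h0]; ring
  rw [Finset.sum_eq_single k] at h3
  · rw [Algebra.smul_def] at h3
    have h5 : σ (z k) - σ (z i) ≠ 0 := sub_ne_zero.2 fun h => hik (hz (σ.injective h)).symm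
    have h6 : τ (z k) - τ (z j) ≠ 0 := sub_ne_zero.2 fun h => hjk (hz (τ.injective h)).symm
    exact (map_eq_zero _).1 ((mul_eq_zero.1 h3).resolve_right (mul_ne_zero h5 h6))
  · intro m _ hmk
    rcases hall m with h | h | h | h
    · rw [h, hl, zero_smul]
    · exact absurd h hmk
    · rw [h, sub_self, zero_mul, smul_zero]
    · rw [h, sub_self, mul_zero, smul_zero]
  · intro h
    exact absurd (Finset.mem_univ _) h

end H79SO.K4
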