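import Mathlib
import Pool.Agent.KS6_26.SO.K4Type

/-! Four words of at most four points replace all words with the same coefficients. -/

open Finset

namespace H79SO.K4

variable {F K : Type} [Field F] [Field K] [Algebra F K] [Fintype K] [DecidableEq K]

omit [Algebra F K] in
/-- one element detects the equality of homomorphisms on a set -/
theorem exists_gen (T : Set K) : ∃ g : K, ∀ σ τ : K →+* K, σ g = τ g ↔ ∀ t ∈ T, σ t = τ t := by
  classical
  set S : Subfield K := Subfield.closure T with hS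
  have : Finite S := inferInstance
  obtain ⟨u, hu⟩ := IsCyclic.exists_generator (α := Sˣ)
  refine ⟨((u : S) : K), fun σ τ => ⟨fun h t ht => ?_, fun h => ?_⟩⟩
  · by_cases ht0 : t = 0
    · rw [ht0, map_zero, map_zero]
    have htS : t ∈ S := Subfield.subset_closure ht
    let v : Sˣ := Units.mk0 ⟨t, htS⟩ (by
      intro h
      exact ht0 (congrArg Subtype.val h))
    obtain ⟨n, hn⟩ := Subgroup.mem_zpowers_iff.1 (hu v)
    have h1 : t = (((u : S) : K)) ^ n := by
      have h2 := congrArg (fun w : Sˣ => S.subtype (w : S)) hn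
      simp only [Units.val_zpow_eq_zpow_val, map_zpow₀] at h2
      exact h2.symm
    rw [h1, map_zpow₀, map_zpow₀, h]
  · have h1 : Set.EqOn σ τ T := h
    exact RingHom.eqOn_field_closure h1 (u : S).2

/-- the functional -/
def phi (κ : Fin 4 → F) : (Fin 4 → K) →ₗ[K] K where
  toFun u := ∑ l, κ l • u l
  map_add' u v := by simp only [Pi.add_apply, smul_add, Finset.sum_add_distrib]
  map_smul' c u := by
    simp only [Pi.smul_apply, smul_eq_mul, RingHom.id_apply, Finset.mul_sum]
    refine Finset.sum_congr rfl fun l _ => ?_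
    rw [mul_smul_comm]

omit [Fintype K] [DecidableEq K] in
theorem finrank_ker (κ : Fin 4 → F) (hκ : ∀ l, κ l ≠ 0) :
    Module.finrank K (LinearMap.ker (phi (K := K) κ)) = 3 := by
  have h1 := LinearMap.finrank_range_add_finrank_ker (phi (K := K) κ)
  have h2 : LinearMap.range (phi (K := K) κ) = ⊤ := by
    apply LinearMap.range_eq_top.2
    intro c
    refine ⟨fun l => if l = 0 then (algebraMap F K (κ 0))⁻¹ * c else 0, ?_⟩
    show ∑ l, κ l • (if l = 0 then (algebraMap F K (κ 0))⁻¹ * c else 0) = c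
    rw [Finset.sum_eq_single 0]
    · rw [if_pos rfl, Algebra.smul_def, ← mul_assoc,
        mul_inv_cancel₀ ((map_ne_zero _).2 (hκ 0)), one_mul]
    · intro l _ hl
      rw [if_neg hl, smul_zero]
    · intro h
      exact absurd (Finset.mem_univ _) h
  rw [h2, finrank_top, Module.finrank_self, Module.finrank_fin_fun] at h1
  omega

/-- `1, v, w` are linearly independent -/
def Indep (v w : Fin 4 → K) : Prop :=
  ∀ a b c : K, (∀ l, a + b * v l + c * w l = 0) → a = 0 ∧ b = 0 ∧ c = 0

omit [Fintype K] [DecidableEq K] in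
theorem span_ker (κ : Fin 4 → F) (hκ : ∀ l, κ l ≠ 0) (hs : ∑ l, κ l • (1 : K) = 0)
    (v w : Fin 4 → K) (hvw : Indep v w) (hv : ∑ l, κ l • v l = 0) (hw : ∑ l, κ l • w l = 0)
    (u : Fin 4 → K) (hu : ∑ l, κ l • u l = 0) :
    ∃ a b c : K, ∀ l, u l = a + b * v l + c * w l := by
  let B : Fin 3 → (Fin 4 → K) := ![fun _ => 1, v, w]
  have hli : LinearIndependent K B := by
    rw [Fintype.linearIndependent_iff]
    intro g hg
    have h1 := hvw (g 0) (g 1) (g 2) (by
      intro l
      have := congrFun hg l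
      simpa [B, Fin.sum_univ_three] using this)
    intro i
    fin_cases i
    · exact h1.1
    · exact h1.2.1
    · exact h1.2.2
  have hle : Submodule.span K (Set.range B) ≤ LinearMap.ker (phi (K := K) κ) := by
    rw [Submodule.span_le]
    rintro _ ⟨i, rfl⟩
    rw [SetLike.mem_coe, LinearMap.mem_ker]
    fin_cases i
    · exact hs
    · exact hv
    · exact hw
  have heq := Submodule.eq_of_le_of_finrank_eq hle (by
    rw [finrank_ker κ hκ, finrank_span_eq_card hli]; simp)
  have hmem : u ∈ Submodule.span K (Set.range B) := by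
    rw [heq, LinearMap.mem_ker]
    exact hu
  rw [Submodule.mem_span_range_iff_exists_fun] at hmem
  obtain ⟨c, hc⟩ := hmem
  refine ⟨c 0, c 1, c 2, fun l => ?_⟩
  rw [← hc]
  simp [B, Fin.sum_univ_three]

omit [DecidableEq K] in
theorem Indep.map (v w : Fin 4 → K) (h : Indep v w) (σ : K →+* K) :
    Indep (fun l => σ (v l)) (fun l => σ (w l)) := by
  intro a b c habc
  have hsurj : Function.Surjective σ := Finite.injective_iff_surjective.1 σ.injective
  obtain ⟨a', rfl⟩ := hsurj a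
  obtain ⟨b', rfl⟩ := hsurj b
  obtain ⟨c', rfl⟩ := hsurj c
  have := h a' b' c' (by
    intro l
    apply σ.injective
    rw [map_zero, map_add, map_add, map_mul, map_mul]
    exact habc l)
  rw [this.1, this.2.1, this.2.2]
  simp

omit [Fintype K] [DecidableEq K] in
/-- the bilinear form is nondegenerate -/
theorem nondeg (κ : Fin 4 → F) (hκ : ∀ l, κ l ≠ 0) (hs : ∑ l, κ l • (1 : K) = 0)
    (v w : Fin 4 → K) (hvw : Indep v w) (hv : ∑ l, κ l • v l = 0) (hw : ∑ l, κ l • w l = 0)
    (u : Fin 4 → K) (hu : ∑ l, κ l • u l = 0) (h1 : ∑ l, κ l • (u l * v l) = 0)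
    (h2 : ∑ l, κ l • (u l * w l) = 0) : ∀ l, u l = u 0 := by
  intro l
  by_cases hl : l = 0
  · rw [hl]
  set t : Fin 4 → K := fun m => (if m = l then (algebraMap F K (κ l))⁻¹ else 0) -
    (if m = 0 then (algebraMap F K (κ 0))⁻¹ else 0) with ht
  have hsum : ∀ y : Fin 4 → K, ∑ m, κ m • (y m * t m) = y l - y 0 := by
    intro y
    have e : ∀ m, κ m • (y m * t m) = (if m = l then y m else 0) - (if m = 0 then y m else 0) := by
      intro m
      rw [ht]
      simp only
      have hm : algebraMap F K (κ m) ≠ 0 := (map_ne_zero _).2 (hκ m)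
      rw [Algebra.smul_def]
      by_cases h3 : m = l
      · by_cases h4 : m = 0
        · exact absurd (h3.symm.trans h4) hl
        · rw [if_pos h3, if_neg h4, if_pos h3, if_neg h4, ← h3]
          field_simp
          ring
      · by_cases h4 : m = 0
        · rw [if_neg h3, if_pos h4, if_neg h3, if_pos h4, ← h4]
          field_simp
          ring
        · rw [if_neg h3, if_neg h4, if_neg h3, if_neg h4]
          ring
    rw [Finset.sum_congr rfl fun m _ => e m, Finset.sum_sub_distrib, Finset.sum_ite_eq',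
      Finset.sum_ite_eq']
    simp
  obtain ⟨a, b, c, habc⟩ := span_ker κ hκ hs v w hvw hv hw t (by
    have := hsum (fun _ => 1)
    simpa using this)
  have h3 := hsum u
  have h4 : ∑ m, κ m • (u m * t m) = a * ∑ m, κ m • u m + b * ∑ m, κ m • (u m * v m) +
      c * ∑ m, κ m • (u m * w m) := by
    rw [Finset.mul_sum, Finset.mul_sum, Finset.mul_sum, ← Finset.sum_add_distrib,
      ← Finset.sum_add_distrib]
    refine Finset.sum_congr rfl fun m _ => ?_
    rw [habc m]
    simp only [Algebra.smul_def]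
    ring
  rw [h4, hu, h1, h2] at h3
  linear_combination -h3

/-- the value of the quadratic condition on a linear combination -/
theorem QQ_comb (κ : Fin 4 → F) (hs : ∑ l, κ l • (1 : K) = 0)
    (v w : Fin 4 → K) (σ τ : K →+* K) (hσv : LL κ v σ) (hσw : LL κ w σ) (hτv : LL κ v τ)
    (hτw : LL κ w τ) (a b c : K) :
    ∑ l, κ l • (σ (a + b * v l + c * w l) * τ (a + b * v l + c * w l)) =
      σ b * τ b * ∑ l, κ l • (σ (v l) * τ (v l)) + σ b * τ c * ∑ l, κ l • (σ (v l) * τ (w l)) +
      σ c * τ b * ∑ l, κ l • (σ (w l) * τ (v l)) +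
      σ c * τ c * ∑ l, κ l • (σ (w l) * τ (w l)) := by
  unfold LL at hσv hσw hτv hτw
  have e : ∑ l, κ l • (σ (a + b * v l + c * w l) * τ (a + b * v l + c * w l)) =
      σ a * τ a * ∑ l, κ l • (1 : K) + σ a * τ b * ∑ l, κ l • τ (v l) +
      σ a * τ c * ∑ l, κ l • τ (w l) + σ b * τ a * ∑ l, κ l • σ (v l) +
      σ c * τ a * ∑ l, κ l • σ (w l) +
      (σ b * τ b * ∑ l, κ l • (σ (v l) * τ (v l)) + σ b * τ c * ∑ l, κ l • (σ (v l) * τ (w l)) +
      σ c * τ b * ∑ l, κ l • (σ (w l) * τ (v l)) +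
      σ c * τ c * ∑ l, κ l • (σ (w l) * τ (w l))) := by
    simp only [Finset.mul_sum, ← Finset.sum_add_distrib]
    refine Finset.sum_congr rfl fun l _ => ?_
    simp only [Algebra.smul_def, map_add, map_mul]
    ring
  rw [e, hs, hσv, hσw, hτv, hτw]
  ring

theorem LL_comb (κ : Fin 4 → F) (hs : ∑ l, κ l • (1 : K) = 0)
    (v w : Fin 4 → K) (σ : K →+* K) (hσv : LL κ v σ) (hσw : LL κ w σ) (a b c : K) :
    LL κ (fun l => a + b * v l + c * w l) σ := by
  unfold LL at *
  have e : ∑ l, κ l • σ (a + b * v l + c * w l) = σ a * ∑ l, κ l • (1 : K) +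
      σ b * ∑ l, κ l • σ (v l) + σ c * ∑ l, κ l • σ (w l) := by
    simp only [Finset.mul_sum, ← Finset.sum_add_distrib]
    refine Finset.sum_congr rfl fun l _ => ?_
    simp only [Algebra.smul_def, map_add, map_mul]
    ring
  rw [e, hs, hσv, hσw]
  ring

/-- **Four words are enough.** -/
theorem core (κ : Fin 4 → F) (hκ : ∀ l, κ l ≠ 0) (hs : ∑ l, κ l • (1 : K) = 0)
    (Z : Set (Fin 4 → K)) (hnc : ∀ z ∈ Z, ∃ i j, z i ≠ z j)
    (haff : ∀ z ∈ Z, ∀ a b : K, a ≠ 0 → (fun l => a * z l + b) ∈ Z)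
    (σ₀ : K →+* K) (h₀ : ∀ z ∈ Z, LL κ z σ₀) :
    ∃ y : Fin 4 → (Fin 4 → K), (∀ m σ, (∀ z ∈ Z, LL κ z σ) → LL κ (y m) σ) ∧
      ∀ σ τ : K →+* K, (∀ z ∈ Z, LL κ z σ) → (∀ z ∈ Z, LL κ z τ) →
        ((∀ z ∈ Z, QQ κ z σ τ) ↔ ∀ m, QQ κ (y m) σ τ) := by
  classical
  rcases Z.eq_empty_or_nonempty with hZ | ⟨z₁, hz₁⟩
  · refine ⟨fun _ _ => 0, fun m σ _ => ?_, fun σ τ _ _ => ⟨fun _ m => ?_, fun _ z hz => ?_⟩⟩
    · unfold LL; simp
    · unfold QQ; simp
    · rw [hZ] at hz; exact absurd hz (Set.notMem_empty z)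
  by_cases hall : ∀ z ∈ Z, ∃ a b : K, ∀ l, z l = a + b * z₁ l
  · refine ⟨fun _ => z₁, fun m σ h => h z₁ hz₁, fun σ τ hσ hτ =>
      ⟨fun h _ => h z₁ hz₁, fun h z hz => ?_⟩⟩
    obtain ⟨a, b, hab⟩ := hall z hz
    have h1 := QQ_comb κ hs z₁ z₁ σ τ (hσ z₁ hz₁) (hσ z₁ hz₁) (hτ z₁ hz₁) (hτ z₁ hz₁) a b 0
    have h2 := h 0
    unfold QQ at h2 ⊢
    simp only [zero_mul, add_zero, map_zero, mul_zero, h2] at h1
    rw [← h1]
    refine Finset.sum_congr rfl fun l _ => ?_
    rw [hab l]
  push Not at hall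
  obtain ⟨z₂, hz₂, h12⟩ := hall
  have hind : Indep z₁ z₂ := by
    intro a b c habc
    have hc : c = 0 := by
      by_contra hc
      obtain ⟨l, hl⟩ := h12 (-a / c) (-b / c)
      apply hl
      have := habc l
      field_simp
      linear_combination this
    subst hc
    have hb : b = 0 := by
      by_contra hb
      obtain ⟨i, j, hij⟩ := hnc z₁ hz₁
      apply hij
      have h1 := habc i
      have h2 := habc j
      have : b * (z₁ i - z₁ j) = 0 := by linear_combination h1 - h2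
      exact sub_eq_zero.1 ((mul_eq_zero.1 this).resolve_left hb)
    subst hb
    have := habc 0
    simp only [zero_mul, add_zero] at this
    exact ⟨this, rfl, rfl⟩
  -- all elements of `Z` are combinations
  have hspan : ∀ v w : Fin 4 → K, v ∈ Z → w ∈ Z → Indep v w → ∀ z ∈ Z,
      ∃ a b c : K, ∀ l, z l = a + b * v l + c * w l := by
    intro v w hv hw hvw z hz
    obtain ⟨a, b, c, habc⟩ := span_ker κ hκ hs _ _ (Indep.map v w hvw σ₀) (h₀ v hv) (h₀ w hw)
      (fun l => σ₀ (z l)) (h₀ z hz)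
    have hsurj : Function.Surjective σ₀ := Finite.injective_iff_surjective.1 σ₀.injective
    obtain ⟨a', rfl⟩ := hsurj a
    obtain ⟨b', rfl⟩ := hsurj b
    obtain ⟨c', rfl⟩ := hsurj c
    refine ⟨a', b', c', fun l => ?_⟩
    apply σ₀.injective
    rw [map_add, map_add, map_mul, map_mul]
    exact habc l
  by_cases hthree : ∀ z ∈ Z, (∃ a b : K, ∀ l, z l = a + b * z₁ l) ∨ ∃ a b : K, ∀ l, z l = a + b * z₂ l
  · refine ⟨fun m => if m = 0 then z₁ else z₂, fun m σ h => ?_, fun σ τ hσ hτ =>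
      ⟨fun h m => ?_, fun h z hz => ?_⟩⟩
    · simp only
      split_ifs
      · exact h z₁ hz₁
      · exact h z₂ hz₂
    · simp only
      split_ifs
      · exact h z₁ hz₁
      · exact h z₂ hz₂
    · have h2 : QQ κ z₁ σ τ := by simpa using h 0
      have h3 : QQ κ z₂ σ τ := by simpa using h 1
      rcases hthree z hz with ⟨a, b, hab⟩ | ⟨a, b, hab⟩
      · have h1 := QQ_comb κ hs z₁ z₁ σ τ (hσ z₁ hz₁) (hσ z₁ hz₁) (hτ z₁ hz₁) (hτ z₁ hz₁) a b 0
        unfold QQ at h2 ⊢
        simp only [zero_mul, add_zero, map_zero, mul_zero, h2] at h1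
        rw [← h1]
        refine Finset.sum_congr rfl fun l _ => ?_
        rw [hab l]
      · have h1 := QQ_comb κ hs z₂ z₂ σ τ (hσ z₂ hz₂) (hσ z₂ hz₂) (hτ z₂ hz₂) (hτ z₂ hz₂) a b 0
        unfold QQ at h3 ⊢
        simp only [zero_mul, add_zero, map_zero, mul_zero, h3] at h1
        rw [← h1]
        refine Finset.sum_congr rfl fun l _ => ?_
        rw [hab l]
  push Not at hthree
  obtain ⟨z₃, hz₃, h31, h32⟩ := hthree
  obtain ⟨a₃, b₃, c₃, h3⟩ := hspan z₁ z₂ hz₁ hz₂ hind z₃ hz₃
  have hb₃ : b₃ ≠ 0 := by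
    rintro rfl
    obtain ⟨l, hl⟩ := h32 a₃ c₃
    apply hl
    rw [h3 l]; ring
  have hc₃ : c₃ ≠ 0 := by
    rintro rfl
    obtain ⟨l, hl⟩ := h31 a₃ b₃
    apply hl
    rw [h3 l]; ring
  -- normalisation
  set v : Fin 4 → K := fun l => b₃ * z₁ l with hv
  set w : Fin 4 → K := fun l => c₃ * z₂ l with hw
  have hvZ : v ∈ Z := by
    have := haff z₁ hz₁ b₃ 0 hb₃
    simpa using this
  have hwZ : w ∈ Z := by
    have := haff z₂ hz₂ c₃ 0 hc₃
    simpa using this
  have hvwZ : (fun l => v l + w l) ∈ Z := by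
    have := haff z₃ hz₃ 1 (-a₃) one_ne_zero
    have e : (fun l => 1 * z₃ l + -a₃) = fun l => v l + w l := by
      funext l
      rw [h3 l, hv, hw]; ring
    rwa [e] at this
  have hvw : Indep v w := by
    intro a b c habc
    have := hind a (b * b₃) (c * c₃) (by
      intro l
      have := habc l
      rw [hv, hw] at this
      linear_combination this)
    exact ⟨this.1, (mul_eq_zero.1 this.2.1).resolve_right hb₃,
      (mul_eq_zero.1 this.2.2).resolve_right hc₃⟩
  obtain ⟨g, hg⟩ := exists_gen (K := K) {t : K | (fun l => v l + t * w l) ∈ Z}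
  -- the values
  have hval : ∀ σ τ : K →+* K, (∀ z ∈ Z, LL κ z σ) → (∀ z ∈ Z, LL κ z τ) →
      QQ κ v σ τ → QQ κ w σ τ → QQ κ (fun l => v l + w l) σ τ →
      ∀ t : K, (QQ κ (fun l => v l + t * w l) σ τ ↔ σ t = τ t) := by
    intro σ τ hσ hτ q1 q2 q3 t
    unfold QQ at q1 q2 q3 ⊢
    have e1 : ∀ t : K, ∑ l, κ l • (σ (v l + t * w l) * τ (v l + t * w l)) =
        τ t * ∑ l, κ l • (σ (v l) * τ (w l)) + σ t * ∑ l, κ l • (σ (w l) * τ (v l)) := by
      intro t
      have := QQ_comb κ hs v w σ τ (hσ v hvZ) (hσ w hwZ) (hτ v hvZ) (hτ w hwZ) 0 1 t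
      simp only [zero_add, one_mul, map_one, q1, q2, mul_zero, add_zero, mul_one] at this
      exact this
    have e2 := e1 1
    simp only [one_mul, map_one] at e2
    rw [q3] at e2
    have e3 : ∑ l, κ l • (σ (w l) * τ (v l)) = - ∑ l, κ l • (σ (v l) * τ (w l)) := by
      linear_combination -e2
    have hne : ∑ l, κ l • (σ (v l) * τ (w l)) ≠ 0 := by
      intro h0
      have h1 := nondeg κ hκ hs _ _ (Indep.map v w hvw τ) (hτ v hvZ) (hτ w hwZ)
        (fun l => σ (v l)) (hσ v hvZ) q1 h0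
      obtain ⟨i, j, hij⟩ := hnc v hvZ
      apply hij
      apply σ.injective
      have hi := h1 i
      have hj := h1 j
      rw [hi, hj]
    rw [e1 t, e3]
    constructor
    · intro h
      have h1 : (τ t - σ t) * ∑ l, κ l • (σ (v l) * τ (w l)) = 0 := by linear_combination h
      exact (sub_eq_zero.1 ((mul_eq_zero.1 h1).resolve_right hne)).symm
    · intro h
      rw [h]; ring
  refine ⟨fun m => if m = 0 then v else if m = 1 then w else if m = 2 then fun l => v l + w l
    else fun l => v l + g * w l, fun m σ h => ?_, fun σ τ hσ hτ => ⟨fun h => ?_, fun h z hz => ?_⟩⟩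
  · simp only
    split_ifs
    · exact h v hvZ
    · exact h w hwZ
    · exact h _ hvwZ
    · have := LL_comb κ hs v w σ (h v hvZ) (h w hwZ) 0 1 g
      simpa using this
  · have hv' := hval σ τ hσ hτ (h v hvZ) (h w hwZ) (h _ hvwZ)
    have h1 : σ g = τ g := (hg σ τ).2 fun t ht => (hv' t).1 (h _ ht)
    intro m
    simp only
    split_ifs
    · exact h v hvZ
    · exact h w hwZ
    · exact h _ hvwZ
    · exact (hv' g).2 h1
  · have q1 : QQ κ v σ τ := by simpa using h 0
    have q2 : QQ κ w σ τ := by simpa using h 1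
    have q3 : QQ κ (fun l => v l + w l) σ τ := by simpa using h 2
    have q4 : QQ κ (fun l => v l + g * w l) σ τ := by simpa using h 3
    have hv' := hval σ τ hσ hτ q1 q2 q3
    have h1 := (hg σ τ).1 ((hv' g).1 q4)
    obtain ⟨a, b, c, habc⟩ := hspan v w hvZ hwZ hvw z hz
    have hcomb := QQ_comb κ hs v w σ τ (hσ v hvZ) (hσ w hwZ) (hτ v hvZ) (hτ w hwZ) a b c
    have hzq : ∑ l, κ l • (σ (z l) * τ (z l)) =
        ∑ l, κ l • (σ (a + b * v l + c * w l) * τ (a + b * v l + c * w l)) := by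
      refine Finset.sum_congr rfl fun l _ => ?_
      rw [habc l]
    by_cases hb : b = 0
    · unfold QQ at q2 ⊢
      rw [hzq, hcomb, hb, q2]
      simp
    · have ht : (fun l => v l + (c / b) * w l) ∈ Z := by
        have := haff z hz b⁻¹ (-a / b) (inv_ne_zero hb)
        have e : (fun l => b⁻¹ * z l + -a / b) = fun l => v l + (c / b) * w l := by
          funext l
          rw [habc l]
          field_simp
          ring
        rwa [e] at this
      have h2 := (hv' (c / b)).2 (h1 _ ht)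
      have hcomb2 := QQ_comb κ hs v w σ τ (hσ v hvZ) (hσ w hwZ) (hτ v hvZ) (hτ w hwZ) 0 1 (c / b)
      unfold QQ at h2 ⊢
      simp only [zero_add, one_mul] at hcomb2
      rw [h2] at hcomb2
      rw [hzq, hcomb]
      have hσb : σ b ≠ 0 := (map_ne_zero σ).2 hb
      have hτb : τ b ≠ 0 := (map_ne_zero τ).2 hb
      have hcb : σ c = σ b * σ (c / b) := by rw [← map_mul, mul_div_cancel₀ _ hb]
      have hcb' : τ c = τ b * τ (c / b) := by rw [← map_mul, mul_div_cancel₀ _ hb]
      rw [hcb, hcb']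
      rw [map_one, map_one] at hcomb2
      linear_combination -(σ b * τ b) * hcomb2

end H79SO.K4
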