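import Mathlib
import Pool.Agent.KS6_26.SO.K4Core

/-! For every fixed field `F` the locality of single orbit characterizations of properties with a
four local characterization is bounded. -/

open Finset

namespace H79SO.K4

variable {F K : Type} [Field F] [Field K] [Algebra F K] [Fintype K] [DecidableEq K]

theorem fixed_mem [Fintype F] (x : K) (hx : x ^ Fintype.card F = x) :
    ∃ c : F, algebraMap F K c = x := by
  classical
  have hq : 1 < Fintype.card F := Fintype.one_lt_card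
  set R := (Polynomial.X ^ Fintype.card F - Polynomial.X : Polynomial K).roots.toFinset with hR
  have hne := FiniteField.X_pow_card_sub_X_ne_zero K hq
  have hmem : ∀ y : K, y ∈ R ↔ y ^ Fintype.card F = y := by
    intro y
    rw [hR, Multiset.mem_toFinset, Polynomial.mem_roots hne, Polynomial.IsRoot.def]
    simp [sub_eq_zero]
  have hcard : R.card ≤ Fintype.card F := by
    refine (Multiset.toFinset_card_le _).trans ((Polynomial.card_roots' _).trans ?_)
    rw [FiniteField.X_pow_card_sub_X_natDegree_eq K hq]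
  have hsub : (Finset.univ : Finset F).image (algebraMap F K) ⊆ R := by
    intro y hy
    obtain ⟨c, _, rfl⟩ := Finset.mem_image.1 hy
    rw [hmem, ← map_pow, FiniteField.pow_card]
  have heq := Finset.eq_of_subset_of_card_le hsub (by
    rw [Finset.card_image_of_injective _ (algebraMap F K).injective, Finset.card_univ]
    exact hcard)
  have h1 : x ∈ R := (hmem x).2 hx
  rw [← heq] at h1
  obtain ⟨c, _, hc⟩ := Finset.mem_image.1 h1
  exact ⟨c, hc⟩

/-- `ρ` is the inverse of `σ` on `F` -/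
def Compat (ρ : F → F) (σ : K →+* K) : Prop :=
  ∀ c : F, σ (algebraMap F K (ρ c)) = algebraMap F K c

theorem exists_compat [Fintype F] (σ : K →+* K) : ∃ ρ : F → F, Compat ρ σ := by
  have key : ∀ c : F, ∃ c' : F, σ (algebraMap F K c') = algebraMap F K c := by
    intro c
    have hsurj : Function.Surjective σ := Finite.injective_iff_surjective.1 σ.injective
    obtain ⟨x, hx⟩ := hsurj (algebraMap F K c)
    obtain ⟨c', hc'⟩ := fixed_mem (F := F) x (by
      apply σ.injective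
      rw [map_pow, hx, ← map_pow, FiniteField.pow_card])
    exact ⟨c', by rw [hc', hx]⟩
  choose ρ hρ using key
  exact ⟨ρ, hρ⟩

theorem LL_compat (κ : Fin 4 → F) (z : Fin 4 → K) (ρ : F → F) (σ : K →+* K) (h : Compat ρ σ) :
    LL κ z σ ↔ ∑ l, algebraMap F K (ρ (κ l)) * z l = 0 := by
  unfold LL
  have e : ∑ l, κ l • σ (z l) = σ (∑ l, algebraMap F K (ρ (κ l)) * z l) := by
    rw [map_sum]
    refine Finset.sum_congr rfl fun l _ => ?_
    rw [map_mul, h, Algebra.smul_def]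
  rw [e, map_eq_zero]

omit [Algebra F K] in
/-- separation by a word on four points -/
theorem sep4 [DecidableEq F] (hQ : 4 ≤ Fintype.card K) (P : Submodule F (K → F))
    (hk : LocalChar 4 P) (f : K → F)
    (hf : f ∉ P) : ∃ (κ : Fin 4 → F) (z : Fin 4 → K), Function.Injective z ∧
      (∀ g ∈ P, ∑ l, κ l * g (z l) = 0) ∧ ∑ l, κ l * f (z l) ≠ 0 := by
  obtain ⟨w, h1, h2, h3⟩ := exists_sep 4 P hk f hf
  obtain ⟨s, hs1, hs2⟩ := Finset.exists_superset_card_eq (n := 4) h1 hQ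
  let e : Fin 4 ≃ s := (Fintype.equivFinOfCardEq (by rw [Fintype.card_coe, hs2])).symm
  have hsum : ∀ g : K → F, ∑ l, w (e l) * g (e l) = ∑ x, w x * g x := by
    intro g
    rw [Equiv.sum_comp e (fun x : s => w x * g x), Finset.sum_coe_sort s (fun x => w x * g x)]
    apply Finset.sum_subset (Finset.subset_univ _)
    intro x _ hx
    have : w x = 0 := by
      by_contra h
      exact hx (hs1 (by simp [h]))
    rw [this, zero_mul]
  refine ⟨fun l => w (e l), fun l => (e l : K), ?_, ?_, ?_⟩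
  · intro a b hab
    exact e.injective (Subtype.ext hab)
  · intro g hg
    rw [hsum]
    exact h2 g hg
  · rw [hsum]
    exact h3

/-- the words on four points orthogonal to `P` -/
def WW (P : Submodule F (K → F)) (κ : Fin 4 → F) (z : Fin 4 → K) : Prop :=
  Function.Injective z ∧ ∀ g ∈ P, ∑ l, κ l * g (z l) = 0

omit [Algebra F K] [Fintype K] [DecidableEq K] in
theorem KF_of_WW (P : Submodule F (K → F)) (hP : AffInv P) (κ : Fin 4 → F) (z : Fin 4 → K)
    (h : WW P κ z) (f : K → F) (hf : f ∈ P) : KF κ z f := by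
  intro a b ha
  exact h.2 _ (hP f hf a b ha)

omit [Algebra F K] [Fintype K] [DecidableEq K] in
theorem WW_aff (P : Submodule F (K → F)) (hP : AffInv P) (κ : Fin 4 → F) (z : Fin 4 → K)
    (h : WW P κ z) (a b : K) (ha : a ≠ 0) : WW P κ (fun l => a * z l + b) := by
  refine ⟨fun i j hij => h.1 (mul_left_cancel₀ ha (add_right_cancel hij)), fun g hg => ?_⟩
  exact h.2 _ (hP g hg a b ha)

/-- a homomorphism killed by all the words -/
def Lin (P : Submodule F (K → F)) (σ : K →+* K) : Prop := ∀ κ z, WW P κ z → LL κ z σ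

theorem kappa_words (hQ : 4 < Fintype.card K) (P : Submodule F (K → F))
    (hP : AffInv P) (κB : Fin 4 → F) (zB : Fin 4 → K) (hB : WW P κB zB) (hκB : κB ≠ 0)
    (κ : Fin 4 → F) : ∃ ws : Fin 4 → (Fin 4 → F) × (Fin 4 → K),
      (∀ m, ∀ f ∈ P, KF (ws m).1 (ws m).2 f) ∧
      ∀ σ τ : K →+* K, Lin P σ → Lin P τ → (∀ m, QQ (ws m).1 (ws m).2 σ τ) →
        (∀ l, κ l ≠ 0) → ∑ l, κ l • (1 : K) = 0 → ∀ z, WW P κ z → QQ κ z σ τ := by
  classical
  by_cases hgood : (∀ l, κ l ≠ 0) ∧ ∑ l, κ l • (1 : K) = 0 ∧ ∃ σ₀ : K →+* K, Lin P σ₀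
  · obtain ⟨hκ, hs, σ₀, hσ₀⟩ := hgood
    obtain ⟨y, hy1, hy2⟩ := core κ hκ hs {z | WW P κ z}
      (fun z hz => ⟨0, 1, fun h => absurd (hz.1 h) (by decide)⟩)
      (fun z hz a b ha => WW_aff P hP κ z hz a b ha) σ₀ (fun z hz => hσ₀ κ z hz)
    refine ⟨fun m => (κ, y m), fun m f hf => ?_, fun σ τ hσ hτ hq _ _ z hz => ?_⟩
    · obtain ⟨p, hp⟩ := exists_rep (F := F) f
      have htop := top_zero κB zB hκB hB.1 f (KF_of_WW P hP κB zB hB f hf) p hp hQ
      apply of_degs κ (y m) f p hp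
      intro d hd hpd
      have hkill : ∀ κ' z', WW P κ' z' → KP κ' z' d ∧ d < Fintype.card K - 1 := fun κ' z' h =>
        degs κ' z' f (KF_of_WW P hP κ' z' h f hf) p hp hQ htop d hd hpd
      have hd1 := (hkill κB zB hB).2
      rcases Nat.eq_zero_or_pos d with h0 | h0
      · subst h0
        intro a b _
        simpa using hs
      · have hkB := (hkill κB zB hB).1
        rcases classify κB zB hκB hB.1 d h0 hd1 hkB with ⟨σ, hσ⟩ | ⟨⟨σ, τ, hστ⟩, hna⟩
        · apply KP_of_LL κ (y m) d σ hσ hs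
          exact hy1 m σ fun z hz => LL_of_KP κ z d σ hσ (hkill κ z hz).1
        · have h3 : ∀ z, WW P κ z → QQ κ z σ τ ∧ LL κ z σ ∧ LL κ z τ := fun z hz =>
            QQ_of_KP κ z d σ τ hστ hna hs (hkill κ z hz).1
          apply KP_of_QQ κ (y m) d σ τ hστ hs
          · exact (hy2 σ τ (fun z hz => (h3 z hz).2.1) (fun z hz => (h3 z hz).2.2)).1
              (fun z hz => (h3 z hz).1) m
          · exact hy1 m σ fun z hz => (h3 z hz).2.1
          · exact hy1 m τ fun z hz => (h3 z hz).2.2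
    · exact (hy2 σ τ (fun z hz => hσ κ z hz) (fun z hz => hτ κ z hz)).2 hq z hz
  · refine ⟨fun _ => (0, 0), fun m f _ a b _ => by simp, fun σ τ hσ _ _ hκ hs z _ => ?_⟩
    exact absurd ⟨hκ, hs, σ, hσ⟩ hgood

/-- the index set of the words -/
abbrev Idx (F : Type) : Type := Unit ⊕ Unit ⊕ (F → F) ⊕ ((Fin 4 → F) × Fin 4)

theorem family [Fintype F] (hQ : 4 < Fintype.card K) (P : Submodule F (K → F))
    (hP : AffInv P) (htop : P ≠ ⊤) (hk : LocalChar 4 P) :
    ∃ ws : Idx F → (Fin 4 → F) × (Fin 4 → K),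
      (∀ f : K → F, f ∈ P ↔ ∀ i, KF (ws i).1 (ws i).2 f) ∧ ∃ i, (ws i).1 ≠ 0 := by
  classical
  -- a nonzero word
  have hex : ∃ κ z, WW P κ z ∧ κ ≠ 0 := by
    have hf : ∃ f, f ∉ P := by
      by_contra hcon
      push Not at hcon
      exact htop (eq_top_iff.2 fun f _ => hcon f)
    obtain ⟨f, hf⟩ := hf
    obtain ⟨κ, z, h1, h2, h3⟩ := sep4 (by omega) P hk f hf
    refine ⟨κ, z, ⟨h1, h2⟩, ?_⟩
    rintro rfl
    simp at h3
  -- a word with a nonzero sum
  have hA : ∃ κ z, WW P κ z ∧ (∑ l, κ l • (1 : K) = 0 → ∀ κ' z', WW P κ' z' →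
      ∑ l, κ' l • (1 : K) = 0) := by
    by_cases h : ∃ κ z, WW P κ z ∧ ∑ l, κ l • (1 : K) ≠ 0
    · obtain ⟨κ, z, h1, h2⟩ := h
      exact ⟨κ, z, h1, fun h => absurd h h2⟩
    · push Not at h
      obtain ⟨κ, z, h1, _⟩ := hex
      exact ⟨κ, z, h1, fun _ => h⟩
  -- a nonzero word with few points
  have hB : ∃ κ z, WW P κ z ∧ κ ≠ 0 ∧ ((∃ κ' z', WW P κ' z' ∧ κ' ≠ 0 ∧ ∃ l, κ' l = 0) →
      ∃ l, κ l = 0) := by
    by_cases h : ∃ κ' z', WW P κ' z' ∧ κ' ≠ 0 ∧ ∃ l, κ' l = 0
    · obtain ⟨κ, z, h1, h2, h3⟩ := h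
      exact ⟨κ, z, h1, h2, fun _ => h3⟩
    · obtain ⟨κ, z, h1, h2⟩ := hex
      exact ⟨κ, z, h1, h2, fun h' => absurd h' h⟩
  -- words for the homomorphisms
  have hR : ∀ ρ : F → F, ∃ κ z, WW P κ z ∧ ∀ σ : K →+* K, Compat ρ σ → LL κ z σ → Lin P σ := by
    intro ρ
    by_cases h : ∃ κ z, WW P κ z ∧ ∃ σ : K →+* K, Compat ρ σ ∧ ¬ LL κ z σ
    · obtain ⟨κ, z, h1, σ, h2, h3⟩ := h
      refine ⟨κ, z, h1, fun σ' h4 h5 => ?_⟩
      rw [LL_compat κ z ρ σ' h4] at h5
      rw [LL_compat κ z ρ σ h2] at h3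
      exact absurd h5 h3
    · push Not at h
      obtain ⟨κ, z, h1, _⟩ := hex
      exact ⟨κ, z, h1, fun σ hσ _ κ' z' h' => h κ' z' h' σ hσ⟩
  obtain ⟨κA, zA, hA1, hA2⟩ := hA
  obtain ⟨κB, zB, hB1, hB2, hB3⟩ := hB
  choose κR zR hR1 hR2 using hR
  choose wk hwk1 hwk2 using kappa_words hQ P hP κB zB hB1 hB2
  refine ⟨fun i => match i with
    | Sum.inl _ => (κA, zA)
    | Sum.inr (Sum.inl _) => (κB, zB)
    | Sum.inr (Sum.inr (Sum.inl ρ)) => (κR ρ, zR ρ)
    | Sum.inr (Sum.inr (Sum.inr km)) => wk km.1 km.2, fun f => ⟨fun hf i => ?_, fun h => ?_⟩,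
    Sum.inr (Sum.inl ()), hB2⟩
  · rcases i with _ | _ | ρ | km
    · exact KF_of_WW P hP κA zA hA1 f hf
    · exact KF_of_WW P hP κB zB hB1 f hf
    · exact KF_of_WW P hP (κR ρ) (zR ρ) (hR1 ρ) f hf
    · exact hwk1 km.1 km.2 f hf
  · have gA : KF κA zA f := h (Sum.inl ())
    have gB : KF κB zB f := h (Sum.inr (Sum.inl ()))
    have gR : ∀ ρ, KF (κR ρ) (zR ρ) f := fun ρ => h (Sum.inr (Sum.inr (Sum.inl ρ)))
    have gK : ∀ κ m, KF (wk κ m).1 (wk κ m).2 f := fun κ m =>
      h (Sum.inr (Sum.inr (Sum.inr (κ, m))))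
    by_contra hf
    obtain ⟨κ, z, h1, h2, h3⟩ := sep4 (by omega) P hk f hf
    have hW : WW P κ z := ⟨h1, h2⟩
    apply h3
    suffices hs : KF κ z f by
      have := hs 1 0 one_ne_zero
      simpa using this
    obtain ⟨p, hp⟩ := exists_rep (F := F) f
    have htop' := top_zero κB zB hB2 hB1.1 f gB p hp hQ
    apply of_degs κ z f p hp
    intro d hd hpd
    have dA := degs κA zA f gA p hp hQ htop' d hd hpd
    have dB := (degs κB zB f gB p hp hQ htop' d hd hpd).1
    have dR := fun ρ => (degs (κR ρ) (zR ρ) f (gR ρ) p hp hQ htop' d hd hpd).1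
    have dK := fun κ m => (degs _ _ f (gK κ m) p hp hQ htop' d hd hpd).1
    have hd1 := dA.2
    rcases Nat.eq_zero_or_pos d with h0 | h0
    · subst h0
      have e1 : ∑ l, κA l • (1 : K) = 0 := by
        have := dA.1 1 0 one_ne_zero
        simpa using this
      intro a b _
      have := hA2 e1 κ z hW
      simpa using this
    · have e1 := sum_zero κA zA d h0 hd1 dA.1
      have e2 := hA2 e1
      rcases classify κB zB hB2 hB1.1 d h0 hd1 dB with ⟨σ, hσ⟩ | ⟨⟨σ, τ, hστ⟩, hna⟩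
      · obtain ⟨ρ, hρ⟩ := exists_compat (F := F) σ
        have h5 := hR2 ρ σ hρ (LL_of_KP _ _ d σ hσ (dR ρ))
        exact KP_of_LL κ z d σ hσ (e2 κ z hW) (h5 κ z hW)
      · obtain ⟨ρ, hρ⟩ := exists_compat (F := F) σ
        obtain ⟨ρ', hρ'⟩ := exists_compat (F := F) τ
        have h5 : Lin P σ := hR2 ρ σ hρ
          (QQ_of_KP _ _ d σ τ hστ hna (e2 _ _ (hR1 ρ)) (dR ρ)).2.1
        have h6 : Lin P τ := hR2 ρ' τ hρ'
          (QQ_of_KP _ _ d σ τ hστ hna (e2 _ _ (hR1 ρ')) (dR ρ')).2.2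
        have h7 := QQ_of_KP κB zB d σ τ hστ hna (e2 _ _ hB1) dB
        by_cases hκ0 : κ = 0
        · subst hκ0
          intro a b _
          simp
        have h8 : ∀ l, κ l ≠ 0 := by
          intro l hl
          obtain ⟨l', hl'⟩ := hB3 ⟨κ, z, hW, hκ0, l, hl⟩
          exact three_points κB zB hB2 hB1.1 σ τ (e2 _ _ hB1) h7.1 h7.2.1 h7.2.2 l' hl'
        have h9 : QQ κ z σ τ := by
          refine hwk2 κ σ τ h5 h6 (fun m => ?_) h8 (e2 κ z hW) z hW
          have := dK κ m 1 0 one_ne_zero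
          simp only [one_mul, add_zero, hστ] at this
          exact this
        exact KP_of_QQ κ z d σ τ hστ (e2 κ z hW) h9 (h5 κ z hW) (h6 κ z hW)

omit [Algebra F K] [Fintype K] [DecidableEq K] in
/-- a single orbit characterization from a family of words -/
theorem single_of_family {ι : Type} [Fintype ι] (P : Submodule F (K → F))
    (ws : ι → (Fin 4 → F) × (Fin 4 → K)) (h : ∀ f : K → F, f ∈ P ↔ ∀ i, KF (ws i).1 (ws i).2 f)
    (i₀ : ι) (hi₀ : (ws i₀).1 ≠ 0) : SingleOrbit (Fintype.card (ι × Fin 4)) P := by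
  classical
  let e : ι × Fin 4 ≃ Fin (Fintype.card (ι × Fin 4)) := Fintype.equivFin _
  refine ⟨{ pt := fun j => (ws (e.symm j).1).2 (e.symm j).2
            S := {v | ∀ i, ∑ l, (ws i).1 l * v (e (i, l)) = 0}
            proper := ?_ }, fun f => ?_⟩
  · intro hS
    obtain ⟨l₀, hl₀⟩ := Function.ne_iff.1 hi₀
    have h1 : (Pi.single (e (i₀, l₀)) (1 : F) : Fin _ → F) ∈
        {v : Fin (Fintype.card (ι × Fin 4)) → F | ∀ i, ∑ l, (ws i).1 l * v (e (i, l)) = 0} := by
      rw [hS]; trivial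
    have h2 := h1 i₀
    rw [Finset.sum_eq_single l₀] at h2
    · rw [Pi.single_eq_same, mul_one] at h2
      exact hl₀ h2
    · intro l _ hl
      rw [Pi.single_eq_of_ne, mul_zero]
      intro heq
      exact hl (congrArg Prod.snd (e.injective heq))
    · intro h
      exact absurd (Finset.mem_univ _) h
  · rw [h]
    constructor
    · intro hf a b ha i
      have := hf i a b ha
      simpa [Constr.comp] using this
    · intro hf i a b ha
      have := hf a b ha i
      simpa [Constr.comp] using this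

end H79SO.K4

namespace H79SO

open K4

/-- For every fixed field the case `k = 4` is bounded. -/
theorem bounded4' (F : Type) [Field F] [Fintype F] [DecidableEq F] (K : Type) [Field K] [Finite K]
    [Algebra F K] (P : Submodule F (K → F)) (hP : AffInv P) (htop : P ≠ ⊤) (hk : LocalChar 4 P) :
    SingleOrbit (kPrime P) P ∧ kPrime P ≤ max (Fintype.card (Idx F × Fin 4)) 28 := by
  classical
  have : Fintype K := Fintype.ofFinite K
  by_cases hQ : 4 < Fintype.card K
  · obtain ⟨ws, h1, i₀, h2⟩ := family hQ P hP htop hk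
    have h3 := single_of_family P ws h1 i₀ h2
    have h4 := kPrime_le P _ ⟨_, le_refl _, h3⟩
    refine ⟨h4.1, h4.2.trans (le_trans (le_of_eq ?_) (le_max_left _ _))⟩
    exact Fintype.card_congr (Equiv.refl _)
  · obtain ⟨p, hpc⟩ := CharP.exists K
    obtain ⟨N, hp, hN⟩ := FiniteField.card K p
    have h1 := upper' (F := F) p N hp (by rw [Nat.card_eq_fintype_card, hN]) 4 P hP htop hk
    have hN2 : (N : ℕ) ≤ 2 := by
      by_contra hcon
      push Not at hcon
      have h2 : 2 ^ 3 ≤ p ^ (N : ℕ) :=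
        (Nat.pow_le_pow_left hp.two_le 3).trans (Nat.pow_le_pow_right hp.pos hcon)
      rw [← hN] at h2
      omega
    refine ⟨h1.1, h1.2.trans ((?_ : _ ≤ 28).trans (le_max_right _ _))⟩
    have h3 : ((N : ℕ) + (4 - 2)).choose (4 - 2) ≤ (2 + (4 - 2)).choose (4 - 2) :=
      Nat.choose_le_choose _ (by omega)
    have h4 : (2 + (4 - 2)).choose (4 - 2) = 6 := by decide
    omega

end H79SO
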